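import Mathlib

/-!
Span sets of Knight's embedded random walks: definitions.
-/

open scoped NNReal

namespace Pool.Agent.Helper47.Knight

/-- The span set on `[0,1]` of a path `b`: the set of time lags `t - s`, `0 ≤ s ≤ t ≤ 1`,
with `b s = b t`. -/
def spanSet (b : ℝ≥0 → ℝ) : Set ℝ :=
  {x | ∃ s t : ℝ≥0, s ≤ t ∧ t ≤ 1 ∧ b s = b t ∧ x = (t : ℝ) - (s : ℝ)}

/-- Knight's embedding times of a path `b` at level `n`: `τ 0 = 0` and
`τ (k+1) = inf {t > τ k : |b t - b (τ k)| = 2 ^ (-n)}`. -/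
noncomputable def knightTime (b : ℝ≥0 → ℝ) (n : ℕ) : ℕ → ℝ≥0
  | 0 => 0
  | k + 1 => sInf {t | knightTime b n k < t ∧ |b t - b (knightTime b n k)| = ((2 : ℝ) ^ n)⁻¹}

/-- Knight's embedded walk of a path `b` at level `n`: `RW k = 2 ^ n * b (τ k)`. -/
noncomputable def knightWalk (b : ℝ≥0 → ℝ) (n k : ℕ) : ℝ := 2 ^ n * b (knightTime b n k)

/-- The discrete span set of Knight's embedded walk at level `n`, inside `{0, ..., 2 ^ (2 n)}`:
all `k - l ≥ 0` with `0 ≤ k, l ≤ 2 ^ (2 n)` and `RW k = RW l`. -/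
def walkSpan (b : ℝ≥0 → ℝ) (n : ℕ) : Set ℕ :=
  {j | ∃ k l : ℕ, k ≤ 2 ^ (2 * n) ∧ l ≤ 2 ^ (2 * n) ∧ l ≤ k ∧
    knightWalk b n k = knightWalk b n l ∧ j = k - l}

/-- The rescaled discrete span set `2 ^ (-2 n) * walkSpan b n`, a finite subset of `[0,1]`. -/
def scaledSpan (b : ℝ≥0 → ℝ) (n : ℕ) : Set ℝ :=
  (fun j : ℕ => (j : ℝ) / 2 ^ (2 * n)) '' walkSpan b n

end Pool.Agent.Helper47.Knight
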