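import Mathlib
import Pool.Agent.Helper47.Knight.Defs

/-!
Deterministic facts on the embedded walk of a continuous path.
-/

open scoped NNReal Topology
open Set Filter

namespace Pool.Agent.Helper47.Knight

/-- `τ` is the `δ`-embedding of `b`. -/
structure IsEmb (b : ℝ≥0 → ℝ) (δ : ℝ) (τ : ℕ → ℝ≥0) : Prop where
  zero : τ 0 = 0
  lt : ∀ k, τ k < τ (k + 1)
  eq : ∀ k, |b (τ (k + 1)) - b (τ k)| = δ
  small : ∀ k s, τ k ≤ s → s < τ (k + 1) → |b s - b (τ k)| < δ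

lemma nextSet_nonempty {b : ℝ≥0 → ℝ} (hb : Continuous b) (hunb : ∀ C : ℝ, ∃ t, C < |b t|)
    {δ : ℝ} (hδ : 0 < δ) (t₀ : ℝ≥0) : {t | t₀ < t ∧ |b t - b t₀| = δ}.Nonempty := by
  -- bound on [0,t₀]
  have hcomp : IsCompact (Icc (0 : ℝ≥0) t₀) := isCompact_Icc
  obtain ⟨C, hC⟩ := (hcomp.image hb).isBounded.exists_norm_le
  obtain ⟨t, ht⟩ := hunb (max C (|b t₀| + δ))
  have ht1 : C < |b t| := lt_of_le_of_lt (le_max_left _ _) ht
  have ht2 : |b t₀| + δ < |b t| := lt_of_le_of_lt (le_max_right _ _) ht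
  have htt : t₀ < t := by
    by_contra h
    push Not at h
    have := hC (b t) ⟨t, ⟨zero_le, h⟩, rfl⟩
    rw [Real.norm_eq_abs] at this
    linarith
  have hcont : ContinuousOn (fun s => |b s - b t₀|) (Icc t₀ t) := by fun_prop
  have hδt : δ ≤ |b t - b t₀| := by
    have := abs_sub_abs_le_abs_sub (b t) (b t₀)
    linarith
  have := intermediate_value_Icc htt.le hcont
  obtain ⟨s, hs, hs'⟩ := this ⟨by simp [hδ.le], hδt⟩
  refine ⟨s, ?_, hs'⟩
  rcases hs.1.eq_or_lt with h | h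
  · exfalso
    subst h
    simp at hs'
    linarith
  · exact h

lemma next_spec {b : ℝ≥0 → ℝ} (hb : Continuous b)
    {δ : ℝ} (hδ : 0 < δ) (t₀ : ℝ≥0) (hne : {t | t₀ < t ∧ |b t - b t₀| = δ}.Nonempty) :
    t₀ < sInf {t | t₀ < t ∧ |b t - b t₀| = δ} ∧
    |b (sInf {t | t₀ < t ∧ |b t - b t₀| = δ}) - b t₀| = δ ∧
    ∀ s, t₀ ≤ s → s < sInf {t | t₀ < t ∧ |b t - b t₀| = δ} → |b s - b t₀| < δ := by
  have hset : {t | t₀ < t ∧ |b t - b t₀| = δ} = Ici t₀ ∩ {t | |b t - b t₀| = δ} := by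
    ext t
    constructor
    · rintro ⟨h1, h2⟩
      exact ⟨h1.le, h2⟩
    · rintro ⟨h1, h2⟩
      refine ⟨lt_of_le_of_ne h1 ?_, h2⟩
      rintro rfl
      simp at h2
      linarith
  have hcl : IsClosed {t | t₀ < t ∧ |b t - b t₀| = δ} := by
    rw [hset]
    exact isClosed_Ici.inter (isClosed_eq (by fun_prop) continuous_const)
  have hmem := hcl.csInf_mem hne (OrderBot.bddBelow _)
  refine ⟨hmem.1, hmem.2, ?_⟩
  intro s hs hs'
  by_contra hcon
  push Not at hcon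
  have hcont : ContinuousOn (fun s => |b s - b t₀|) (Icc t₀ s) := by fun_prop
  obtain ⟨r, hr, hr'⟩ := intermediate_value_Icc hs hcont ⟨by simp [hδ.le], hcon⟩
  have hrmem : r ∈ {t | t₀ < t ∧ |b t - b t₀| = δ} := by
    rw [hset]
    exact ⟨hr.1, hr'⟩
  have := csInf_le (OrderBot.bddBelow _) hrmem
  exact absurd (lt_of_lt_of_le hs' this) (not_lt.mpr hr.2)

lemma knightTime_isEmb {b : ℝ≥0 → ℝ} (hb : Continuous b) (hunb : ∀ C : ℝ, ∃ t, C < |b t|)
    (n : ℕ) : IsEmb b ((2 : ℝ) ^ n)⁻¹ (knightTime b n) := by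
  have hδ : (0 : ℝ) < ((2 : ℝ) ^ n)⁻¹ := by positivity
  have key : ∀ k, knightTime b n k < knightTime b n (k + 1) ∧
      |b (knightTime b n (k + 1)) - b (knightTime b n k)| = ((2 : ℝ) ^ n)⁻¹ ∧
      ∀ s, knightTime b n k ≤ s → s < knightTime b n (k + 1) →
        |b s - b (knightTime b n k)| < ((2 : ℝ) ^ n)⁻¹ := by
    intro k
    have := next_spec hb hδ (knightTime b n k) (nextSet_nonempty hb hunb hδ _)
    simpa [knightTime] using this
  exact ⟨rfl, fun k => (key k).1, fun k => (key k).2.1, fun k => (key k).2.2⟩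

namespace IsEmb

variable {b : ℝ≥0 → ℝ} {δ : ℝ} {τ : ℕ → ℝ≥0}

lemma strictMono (h : IsEmb b δ τ) : StrictMono τ := strictMono_nat_of_lt_succ h.lt

lemma exists_lt (h : IsEmb b δ τ) (hb : Continuous b) (hδ : 0 < δ) (T : ℝ≥0) : ∃ k, T < τ k := by
  by_contra hcon
  push Not at hcon
  have hbdd : BddAbove (range τ) := ⟨T, by rintro _ ⟨k, rfl⟩; exact hcon k⟩
  have hlim := tendsto_atTop_ciSup h.strictMono.monotone hbdd
  have h1 : Tendsto (fun k => b (τ k)) atTop (𝓝 (b (⨆ k, τ k))) := (hb.tendsto _).comp hlim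
  have h2 : Tendsto (fun k => b (τ (k + 1))) atTop (𝓝 (b (⨆ k, τ k))) :=
    h1.comp (tendsto_add_atTop_nat 1)
  have h3 : Tendsto (fun k => |b (τ (k + 1)) - b (τ k)|) atTop (𝓝 0) := by
    have := (h2.sub h1).abs
    simpa using this
  have h4 : Tendsto (fun _ : ℕ => δ) atTop (𝓝 0) := by
    refine h3.congr (fun k => h.eq k)
  have := tendsto_nhds_unique h4 tendsto_const_nhds
  linarith

/-- every time lies in a unique slab -/
lemma exists_slab (h : IsEmb b δ τ) (hb : Continuous b) (hδ : 0 < δ) (T : ℝ≥0) :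
    ∃ k, τ k ≤ T ∧ T < τ (k + 1) := by
  classical
  have hex := h.exists_lt hb hδ T
  have hspec := Nat.find_spec hex
  set m := Nat.find hex with hm
  have hm0 : m ≠ 0 := by
    intro h0
    rw [h0, h.zero] at hspec
    exact absurd hspec (not_lt.mpr zero_le)
  obtain ⟨k, hk⟩ := Nat.exists_eq_succ_of_ne_zero hm0
  refine ⟨k, ?_, ?_⟩
  · have := Nat.find_min hex (m := k) (by omega)
    exact not_lt.mp this
  · rw [hk] at hspec
    exact hspec

lemma slab_unique (h : IsEmb b δ τ) {T : ℝ≥0} {k l : ℕ} (h1 : τ k ≤ T) (h2 : T < τ (k + 1))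
    (h3 : τ l ≤ T) (h4 : T < τ (l + 1)) : k = l := by
  have := h.strictMono.lt_iff_lt.mp (lt_of_le_of_lt h1 h4)
  have := h.strictMono.lt_iff_lt.mp (lt_of_le_of_lt h3 h2)
  omega

end IsEmb

/-- index of the slab containing `T` -/
noncomputable def idx (τ : ℕ → ℝ≥0) (T : ℝ≥0) : ℕ := sInf {k | T < τ (k + 1)}

lemma IsEmb.idx_spec {b : ℝ≥0 → ℝ} {δ : ℝ} {τ : ℕ → ℝ≥0} (h : IsEmb b δ τ) (hb : Continuous b)
    (hδ : 0 < δ) (T : ℝ≥0) : τ (idx τ T) ≤ T ∧ T < τ (idx τ T + 1) := by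
  obtain ⟨k, hk1, hk2⟩ := h.exists_slab hb hδ T
  have hne : {k | T < τ (k + 1)}.Nonempty := ⟨k, hk2⟩
  have hmem := Nat.sInf_mem hne
  have hle : idx τ T ≤ k := Nat.sInf_le hk2
  refine ⟨?_, hmem⟩
  exact (h.strictMono.monotone hle).trans hk1

lemma IsEmb.idx_eq {b : ℝ≥0 → ℝ} {δ : ℝ} {τ : ℕ → ℝ≥0} (h : IsEmb b δ τ) (hb : Continuous b)
    (hδ : 0 < δ) {T : ℝ≥0} {k : ℕ} (h1 : τ k ≤ T) (h2 : T < τ (k + 1)) : idx τ T = k :=
  h.slab_unique (h.idx_spec hb hδ T).1 (h.idx_spec hb hδ T).2 h1 h2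

end Pool.Agent.Helper47.Knight
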