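import Mathlib
import Pool.Agent.Helper47.Knight.Emb

/-!
Discretisation of the embedded walk along a deterministic grid.
-/

open scoped NNReal Topology
open Set Filter

namespace Pool.Agent.Helper47.Knight

/-- state (current level, number of steps) of the discretised embedded walk -/
noncomputable def st (δ : ℝ) (x : ℕ → ℝ) : ℕ → ℝ × ℕ
  | 0 => (0, 0)
  | j + 1 => if δ ≤ |x (j + 1) - (st δ x j).1| then
      ((st δ x j).1 + (if 0 ≤ x (j + 1) - (st δ x j).1 then δ else -δ), (st δ x j).2 + 1)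
    else st δ x j

/-- truncation to `[-δ, δ]` -/
noncomputable def clampd (δ u : ℝ) : ℝ := max (-δ) (min δ u)

lemma abs_clampd_le {δ : ℝ} (hδ : 0 ≤ δ) (u : ℝ) : |clampd δ u| ≤ δ := by
  unfold clampd
  rw [abs_le]
  constructor
  · exact le_max_left _ _
  · exact max_le (by linarith) (min_le_left _ _)

lemma clampd_eq {δ u : ℝ} (h : |u| < δ) : clampd δ u = u := by
  unfold clampd
  rw [abs_lt] at h
  rw [min_eq_right h.2.le, max_eq_right h.1.le]

/-- compensated sum -/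
noncomputable def Ssum (δ h : ℝ) (x : ℕ → ℝ) : ℕ → ℝ
  | 0 => 0
  | j + 1 => Ssum δ h x j + (2 * clampd δ (x j - (st δ x j).1) * (x (j + 1) - x j) +
      ((x (j + 1) - x j) ^ 2 - h))

lemma st_congr {δ : ℝ} {x y : ℕ → ℝ} : ∀ j : ℕ, (∀ i ≤ j, x i = y i) → st δ x j = st δ y j
  | 0, _ => rfl
  | j + 1, h => by
    have ih := st_congr (δ := δ) j (fun i hi => h i (by omega))
    simp only [st, ih, h (j + 1) le_rfl]

lemma Ssum_congr {δ h : ℝ} {x y : ℕ → ℝ} : ∀ j : ℕ, (∀ i ≤ j, x i = y i) →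
    Ssum δ h x j = Ssum δ h y j
  | 0, _ => rfl
  | j + 1, hh => by
    have ih := Ssum_congr (δ := δ) (h := h) j (fun i hi => hh i (by omega))
    have ih2 := st_congr (δ := δ) j (fun i hi => hh i (by omega))
    simp only [Ssum, ih, ih2, hh (j + 1) le_rfl, hh j (by omega)]

lemma grid_exists {p q T : ℝ≥0} (hpq : p < q) (hT : 0 < T) :
    ∀ᶠ M : ℕ in atTop, ∃ i : ℕ, p < (i : ℝ≥0) * T / M ∧ (i : ℝ≥0) * T / M < q := by
  have hlim : Tendsto (fun M : ℕ => (T : ℝ) / M) atTop (𝓝 0) :=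
    tendsto_const_div_atTop_nhds_zero_nat _
  have hd : (0 : ℝ) < (q : ℝ) - p := by
    have : (p : ℝ) < q := by exact_mod_cast hpq
    linarith
  filter_upwards [hlim.eventually (gt_mem_nhds hd), eventually_gt_atTop 0] with M hM hM0
  have hMr : (0 : ℝ) < M := by exact_mod_cast hM0
  have hTr : (0 : ℝ) < T := by exact_mod_cast hT
  refine ⟨⌊(p : ℝ) * M / T⌋₊ + 1, ?_, ?_⟩
  · have h1 : (p : ℝ) * M / T < ⌊(p : ℝ) * M / T⌋₊ + 1 := Nat.lt_floor_add_one _
    have h2 : (p : ℝ) < (⌊(p : ℝ) * M / T⌋₊ + 1) * T / M := by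
      rw [div_lt_iff₀ hTr] at h1
      rw [lt_div_iff₀ hMr]
      exact h1
    have h3 : ((p : ℝ≥0) : ℝ) < (((⌊(p : ℝ) * M / T⌋₊ + 1 : ℕ) : ℝ≥0) * T / M : ℝ≥0) := by
      push_cast
      exact h2
    exact_mod_cast h3
  · have h1 : (⌊(p : ℝ) * M / T⌋₊ : ℝ) ≤ (p : ℝ) * M / T := Nat.floor_le (by positivity)
    have h2 : (⌊(p : ℝ) * M / T⌋₊ + 1) * (T : ℝ) / M < q := by
      have h3 : (⌊(p : ℝ) * M / T⌋₊ : ℝ) * T / M ≤ p := by
        rw [div_le_iff₀ hMr]
        rw [le_div_iff₀ hTr] at h1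
        exact h1
      have h4 : (⌊(p : ℝ) * M / T⌋₊ + 1) * (T : ℝ) / M =
          (⌊(p : ℝ) * M / T⌋₊ : ℝ) * T / M + T / M := by ring
      rw [h4]
      linarith
    have h3 : ((((⌊(p : ℝ) * M / T⌋₊ + 1 : ℕ) : ℝ≥0) * T / M : ℝ≥0) : ℝ) < q := by
      push_cast
      exact h2
    exact_mod_cast h3

/-- The inductive invariant along the grid. -/
lemma disc_invariant {b : ℝ≥0 → ℝ} {δ : ℝ} {τ : ℕ → ℝ≥0} (he : IsEmb b δ τ)
    (h0 : b 0 = 0) {N : ℕ} {T : ℝ≥0}
    (hTN' : T < τ (N + 1)) {η : ℝ} (hη : 0 < η) (hδ : 0 < δ)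
    (p q : ℕ → ℝ≥0) (hp : ∀ k < N, τ (k + 1) < p k)
    (hq2 : ∀ k < N, q k ≤ τ (k + 2))
    (hbig : ∀ k < N, ∀ s, p k < s → s < q k → δ < |b s - b (τ k)|)
    (hclose : ∀ k < N, ∀ s, τ (k + 1) ≤ s → s < q k → |b s - b (τ (k + 1))| < min η δ)
    {M : ℕ} (hM : 0 < M) (hT : 0 < T) (i : ℕ → ℕ)
    (hi1 : ∀ k < N, p k < (i k : ℝ≥0) * T / M) (hi2 : ∀ k < N, (i k : ℝ≥0) * T / M < q k) :
    ∀ j ≤ M, ∃ k ≤ N, st δ (fun j => b ((j : ℝ≥0) * T / M)) j = (b (τ k), k) ∧
      τ k ≤ (j : ℝ≥0) * T / M ∧ (k < N → j ≤ i k) ∧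
      |b ((j : ℝ≥0) * T / M) - b (τ k)| < δ ∧
      ∃ O : ℝ, 0 ≤ O ∧ O ≤ k * η ∧
        Ssum δ ((T : ℝ) / M) (fun j => b ((j : ℝ≥0) * T / M)) j =
          (b ((j : ℝ≥0) * T / M) - b (τ k)) ^ 2 - j * ((T : ℝ) / M) + δ ^ 2 * k + 2 * δ * O := by
  have hMne : (M : ℝ≥0) ≠ 0 := by exact_mod_cast hM.ne'
  have hMpos : (0 : ℝ≥0) < M := by exact_mod_cast hM
  have tmono : ∀ {j j' : ℕ}, j ≤ j' → (j : ℝ≥0) * T / M ≤ (j' : ℝ≥0) * T / M := by
    intro j j' hjj
    gcongr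
  have tlt : ∀ {j j' : ℕ}, (j : ℝ≥0) * T / M < (j' : ℝ≥0) * T / M → j < j' := by
    intro j j' hjj
    by_contra hcon
    push Not at hcon
    exact absurd hjj (not_lt.mpr (tmono hcon))
  intro j
  induction j with
  | zero =>
    intro _
    refine ⟨0, Nat.zero_le _, ?_, ?_, ?_, ?_, 0, le_rfl, ?_, ?_⟩
    · simp [st, he.zero, h0]
    · simp [he.zero]
    · intro _; exact Nat.zero_le _
    · simp [he.zero, hδ]
    · simp
    · simp [Ssum, he.zero]
  | succ j ih =>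
    intro hj
    obtain ⟨k, hkN, hst, hτk, hik, hsm, O, hO0, hO1, hS⟩ := ih (by omega)
    have hstrict : k < N → j < i k := by
      intro hk
      rcases (hik hk).eq_or_lt with h | h
      · exfalso
        subst h
        have := hbig k hk _ (hi1 k hk) (hi2 k hk)
        linarith
      · exact h
    have ht' : ((j + 1 : ℕ) : ℝ≥0) * T / M ≤ T := by
      have : ((M : ℕ) : ℝ≥0) * T / M = T := by field_simp
      calc ((j + 1 : ℕ) : ℝ≥0) * T / M ≤ ((M : ℕ) : ℝ≥0) * T / M := tmono hj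
        _ = T := this
    have hjj : (j : ℝ≥0) * T / M ≤ ((j + 1 : ℕ) : ℝ≥0) * T / M := tmono (Nat.le_succ j)
    have hSsucc : Ssum δ ((T : ℝ) / M) (fun j => b ((j : ℝ≥0) * T / M)) (j + 1) =
        (b (((j + 1 : ℕ) : ℝ≥0) * T / M) - b (τ k)) ^ 2 - ((j + 1 : ℕ) : ℝ) * ((T : ℝ) / M)
          + δ ^ 2 * k + 2 * δ * O := by
      simp only [Ssum, hst, hS]
      rw [clampd_eq hsm]
      push_cast
      ring
    by_cases hcase : δ ≤ |b (((j + 1 : ℕ) : ℝ≥0) * T / M) - b (τ k)|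
    · -- an update
      have hkN' : k < N := by
        by_contra hcon
        have hkeq : k = N := by omega
        subst hkeq
        have := he.small k _ (hτk.trans hjj) (lt_of_le_of_lt ht' hTN')
        linarith
      have hge : τ (k + 1) ≤ ((j + 1 : ℕ) : ℝ≥0) * T / M := by
        by_contra hcon
        push Not at hcon
        have := he.small k _ (hτk.trans hjj) hcon
        linarith
      have hlt : ((j + 1 : ℕ) : ℝ≥0) * T / M < q k :=
        lt_of_le_of_lt (tmono (hstrict hkN')) (hi2 k hkN')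
      have hcl := hclose k hkN' _ hge hlt
      have heq := he.eq k
      set w := b (((j + 1 : ℕ) : ℝ≥0) * T / M) - b (τ k) with hw
      set e := b (τ (k + 1)) - b (τ k) with hee
      have hwe : b (((j + 1 : ℕ) : ℝ≥0) * T / M) - b (τ (k + 1)) = w - e := by
        rw [hw, hee]; ring
      rw [hwe] at hcl
      have hcl1 : |w - e| < η := lt_of_lt_of_le hcl (min_le_left _ _)
      have hcl2 : |w - e| < δ := lt_of_lt_of_le hcl (min_le_right _ _)
      have hsign : (if 0 ≤ w then δ else -δ) = e ∧ w * e = δ * |w| := by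
        rcases abs_eq hδ.le |>.mp heq with h | h
        · rw [h] at hcl2 ⊢
          rw [abs_lt] at hcl2
          have hw0 : 0 ≤ w := by linarith
          rw [if_pos hw0, abs_of_nonneg hw0]
          exact ⟨rfl, by ring⟩
        · rw [h] at hcl2 ⊢
          rw [abs_lt] at hcl2
          have hw0 : w < 0 := by linarith
          rw [if_neg (not_le.mpr hw0), abs_of_neg hw0]
          exact ⟨rfl, by ring⟩
      refine ⟨k + 1, hkN', ?_, hge, ?_, ?_, O + (|w| - δ), ?_, ?_, ?_⟩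
      · simp only [st, hst]
        rw [if_pos hcase, hsign.1]
        simp [hee]
      · intro hk2
        have h1 : ((j + 1 : ℕ) : ℝ≥0) * T / M < (i (k + 1) : ℝ≥0) * T / M := by
          calc ((j + 1 : ℕ) : ℝ≥0) * T / M < q k := hlt
            _ ≤ τ (k + 2) := hq2 k hkN'
            _ < p (k + 1) := hp (k + 1) hk2
            _ < _ := hi1 (k + 1) hk2
        exact (tlt h1).le
      · rw [hwe]; exact hcl2
      · linarith
      · have h1 : |w| - |e| ≤ |w - e| := abs_sub_abs_le_abs_sub w e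
        rw [heq] at h1
        push_cast
        linarith
      · rw [hSsucc, hwe]
        have he2 : e ^ 2 = δ ^ 2 := by rw [← sq_abs, heq]
        have hwe2 : (w - e) ^ 2 = w ^ 2 - 2 * (w * e) + e ^ 2 := by ring
        rw [hwe2, hsign.2, he2]
        push_cast
        ring
    · -- no update
      push Not at hcase
      refine ⟨k, hkN, ?_, hτk.trans hjj, fun hk => hstrict hk, hcase, O, hO0, hO1, hSsucc⟩
      simp only [st, hst]
      rw [if_neg (not_le.mpr hcase)]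

/-- Convergence of the discretised walk and compensated sums, for a continuous path such that
each visited level is crossed right after it is reached. -/
theorem disc_converges {b : ℝ≥0 → ℝ} (hb : Continuous b) {δ : ℝ} {τ : ℕ → ℝ≥0}
    (he : IsEmb b δ τ) (hδ : 0 < δ) (h0 : b 0 = 0) {N : ℕ} {T : ℝ≥0} (hTN : τ N < T)
    (hTN' : T < τ (N + 1))
    (hcross : ∀ k < N, ∀ r, τ (k + 1) < r → ∃ s, τ (k + 1) < s ∧ s < r ∧ δ < |b s - b (τ k)|)
    {η : ℝ} (hη : 0 < η) :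
    ∀ᶠ M : ℕ in atTop, st δ (fun j => b ((j : ℝ≥0) * T / M)) M = (b (τ N), N) ∧
      |Ssum δ ((T : ℝ) / M) (fun j => b ((j : ℝ≥0) * T / M)) M -
        ((b T - b (τ N)) ^ 2 - T + δ ^ 2 * N)| ≤ 2 * δ * (N * η) := by
  have hT : 0 < T := lt_of_le_of_lt zero_le hTN
  -- choose the intervals
  have hex : ∀ k, k < N → ∃ p q : ℝ≥0, p < q ∧ τ (k + 1) < p ∧ q ≤ τ (k + 2) ∧ q ≤ T ∧
      (∀ s, p < s → s < q → δ < |b s - b (τ k)|) ∧
      (∀ s, τ (k + 1) ≤ s → s < q → |b s - b (τ (k + 1))| < min η δ) := by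
    intro k hk
    have hτT : τ (k + 1) < T := lt_of_le_of_lt (he.strictMono.monotone hk) hTN
    have hττ : τ (k + 1) < τ (k + 2) := he.lt (k + 1)
    -- closeness radius
    have hcont : Tendsto (fun s => |b s - b (τ (k + 1))|) (𝓝 (τ (k + 1))) (𝓝 0) := by
      have : Continuous (fun s => |b s - b (τ (k + 1))|) := by fun_prop
      have h := this.tendsto (τ (k + 1))
      simpa using h
    have hev : ∀ᶠ s in 𝓝 (τ (k + 1)), |b s - b (τ (k + 1))| < min η δ :=
      hcont.eventually (gt_mem_nhds (lt_min hη hδ))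
    have hev2 : ∀ᶠ s in 𝓝[≥] (τ (k + 1)), |b s - b (τ (k + 1))| < min η δ :=
      hev.filter_mono nhdsWithin_le_nhds
    obtain ⟨r, hr1, hr2⟩ := mem_nhdsGE_iff_exists_Ico_subset.mp hev2
    have hr1' : τ (k + 1) < r := hr1
    obtain ⟨s₀, hs1, hs2, hs3⟩ := hcross k hk (min r (min (τ (k + 2)) T))
      (lt_min hr1' (lt_min hττ hτT))
    -- neighbourhood of s₀
    have hopen : IsOpen {s | δ < |b s - b (τ k)|} := isOpen_lt continuous_const (by fun_prop)
    have hnb : {s | δ < |b s - b (τ k)|} ∩ Ioo (τ (k + 1)) (min r (min (τ (k + 2)) T)) ∈ 𝓝 s₀ :=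
      (hopen.inter isOpen_Ioo).mem_nhds ⟨hs3, hs1, hs2⟩
    have hnb' : {s | δ < |b s - b (τ k)|} ∩ Ioo (τ (k + 1)) (min r (min (τ (k + 2)) T)) ∈
        𝓝[≥] s₀ := nhdsWithin_le_nhds hnb
    obtain ⟨q, hq1, hq2⟩ := mem_nhdsGE_iff_exists_Ico_subset.mp hnb'
    have hq1' : s₀ < q := hq1
    have hqle : q ≤ min r (min (τ (k + 2)) T) := by
      by_contra hcon
      push Not at hcon
      have : min r (min (τ (k + 2)) T) ∈ Ico s₀ q := ⟨hs2.le, hcon⟩
      have h2 := (hq2 this).2.2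
      exact absurd h2 (lt_irrefl _)
    refine ⟨s₀, q, hq1', hs1, hqle.trans ((min_le_right _ _).trans (min_le_left _ _)),
      hqle.trans ((min_le_right _ _).trans (min_le_right _ _)), ?_, ?_⟩
    · intro s hs hs'
      exact (hq2 ⟨hs.le, hs'⟩).1
    · intro s hs hs'
      exact hr2 ⟨hs, lt_of_lt_of_le hs' (hqle.trans (min_le_left _ _))⟩
  choose! p q hpq hp hq2 hqT hbig hclose using hex
  have hev : ∀ᶠ M : ℕ in atTop, ∀ k ∈ Finset.range N,
      ∃ i : ℕ, p k < (i : ℝ≥0) * T / M ∧ (i : ℝ≥0) * T / M < q k := by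
    rw [Filter.eventually_all_finset]
    intro k hk
    exact grid_exists (hpq k (Finset.mem_range.mp hk)) hT
  filter_upwards [hev, eventually_gt_atTop 0] with M hM hM0
  have hM' : ∀ k, k < N → ∃ i : ℕ, p k < (i : ℝ≥0) * T / M ∧ (i : ℝ≥0) * T / M < q k :=
    fun k hk => hM k (Finset.mem_range.mpr hk)
  choose! i hi1 hi2 using hM'
  have hMne : (M : ℝ≥0) ≠ 0 := by exact_mod_cast hM0.ne'
  have hMT : ((M : ℕ) : ℝ≥0) * T / M = T := by field_simp
  have hMT' : (M : ℝ) * ((T : ℝ) / M) = T := by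
    have : (M : ℝ) ≠ 0 := by exact_mod_cast hM0.ne'
    field_simp
  obtain ⟨k, hkN, hst, -, hik, -, O, hO0, hO1, hS⟩ :=
    disc_invariant he h0 hTN' hη hδ p q hp hq2 hbig hclose hM0 hT i hi1 hi2 M le_rfl
  have hk : k = N := by
    by_contra hne
    have hlt : k < N := by omega
    have h1 := hik hlt
    have h2 : ((M : ℕ) : ℝ≥0) * T / M ≤ (i k : ℝ≥0) * T / M := by gcongr
    have h3 := hi2 k hlt
    rw [hMT] at h2
    exact absurd (lt_of_le_of_lt h2 h3) (not_lt.mpr (hqT k hlt))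
  subst hk
  refine ⟨hst, ?_⟩
  rw [hS, hMT, hMT']
  have : (b T - b (τ k)) ^ 2 - (T : ℝ) + δ ^ 2 * k + 2 * δ * O -
      ((b T - b (τ k)) ^ 2 - T + δ ^ 2 * k) = 2 * δ * O := by ring
  rw [this, abs_of_nonneg (by positivity)]
  gcongr

end Pool.Agent.Helper47.Knight
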