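import Mathlib
import Pool.Agent.Helper47.Knight.Disc

/-!
Second moment bound for the compensated sums along a Brownian path.
-/

open scoped NNReal Topology ENNReal
open Set Filter MeasureTheory ProbabilityTheory

namespace Pool.Agent.Helper47.Knight

/-- the variance of the square of a standard Gaussian -/
noncomputable def C4 : ℝ := ∫ y, (y ^ 2 - 1) ^ 2 ∂(gaussianReal 0 1)

lemma C4_nonneg : 0 ≤ C4 := integral_nonneg (fun _ => sq_nonneg _)

lemma memLp_pow_gauss (h : ℝ≥0) (k : ℕ) (hk : k ≠ 0) :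
    MemLp (fun x : ℝ => x ^ k) 2 (gaussianReal 0 h) := by
  have h1 : MemLp (fun x : ℝ => x) ((k : ℝ≥0∞) * 2) (gaussianReal 0 h) :=
    memLp_id_gaussianReal' _ (by finiteness)
  have h3 : MemLp (fun x : ℝ => ‖x‖ ^ (k : ℝ)) 2 (gaussianReal 0 h) := by
    have h2 := MemLp.norm_rpow_div (q := (k : ℝ≥0∞)) h1
    have hk0 : ((k : ℝ≥0∞)) ≠ 0 := by exact_mod_cast hk
    have : ((k : ℝ≥0∞) * 2) / (k : ℝ≥0∞) = 2 := by
      rw [mul_comm]
      exact ENNReal.mul_div_cancel_right hk0 (by finiteness)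
    rw [this] at h2
    simpa using h2
  refine h3.mono' (by fun_prop) (ae_of_all _ fun x => ?_)
  simp

lemma gauss_sq (h : ℝ≥0) : ∫ x, x ^ 2 ∂(gaussianReal 0 h) = h := by
  have h1 : Var[fun x => x; gaussianReal 0 h] = h := variance_fun_id_gaussianReal
  have h2 : MemLp (fun x : ℝ => x) 2 (gaussianReal 0 h) := memLp_id_gaussianReal' 2 (by finiteness)
  rw [variance_eq_sub h2] at h1
  have h3 : ∫ x, x ∂(gaussianReal 0 h) = 0 := integral_id_gaussianReal
  simp only [h3] at h1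
  simpa using h1

lemma gauss_fourth (h : ℝ≥0) : ∫ x, (x ^ 2 - (h : ℝ)) ^ 2 ∂(gaussianReal 0 h) = C4 * h ^ 2 := by
  have hmap : gaussianReal 0 h = (gaussianReal 0 1).map (Real.sqrt h * ·) := by
    rw [gaussianReal_map_const_mul]
    congr 1
    · simp
    · ext
      simp
  rw [hmap, integral_map (by fun_prop) (by fun_prop)]
  unfold C4
  rw [← integral_mul_const]
  congr 1
  ext y
  have : (Real.sqrt h * y) ^ 2 = h * y ^ 2 := by
    rw [mul_pow, Real.sq_sqrt (by positivity)]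
  rw [this]
  ring

/-- one step of the second moment estimate -/
lemma one_step {Ω : Type*} [MeasurableSpace Ω] {P : Measure Ω} [IsProbabilityMeasure P]
    {S a ξ : Ω → ℝ} {δ : ℝ} {h : ℝ≥0} (hδ : 0 ≤ δ) (hS : MemLp S 2 P)
    (ha : AEMeasurable a P) (ha' : ∀ ω, |a ω| ≤ δ) (hξ : HasLaw ξ (gaussianReal 0 h) P)
    (hind : IndepFun (fun ω => (S ω, a ω)) ξ P) :
    MemLp (fun ω => S ω + (2 * a ω * ξ ω + (ξ ω ^ 2 - h))) 2 P ∧
    ∫ ω, (S ω + (2 * a ω * ξ ω + (ξ ω ^ 2 - h))) ^ 2 ∂P ≤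
      ∫ ω, S ω ^ 2 ∂P + (8 * δ ^ 2 * h + 2 * (C4 * h ^ 2)) := by
  have hξm : AEMeasurable ξ P := hξ.aemeasurable
  have hSm : AEMeasurable S P := hS.1.aemeasurable
  -- L2 facts
  have hξ2 : MemLp ξ 2 P := by
    have h1 : MemLp (fun x : ℝ => x) 2 (gaussianReal 0 h) :=
      memLp_id_gaussianReal' 2 (by finiteness)
    rw [← hξ.map_eq] at h1
    exact (memLp_map_measure_iff (by fun_prop) hξm).mp h1
  have hξsq : MemLp (fun ω => ξ ω ^ 2 - (h : ℝ)) 2 P := by
    have h1 : MemLp (fun x : ℝ => x ^ 2 - (h : ℝ)) 2 (gaussianReal 0 h) :=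
      (memLp_pow_gauss h 2 two_ne_zero).sub (memLp_const _)
    rw [← hξ.map_eq] at h1
    exact (memLp_map_measure_iff (by fun_prop) hξm).mp h1
  have ha_top : MemLp a ∞ P := memLp_top_of_bound ha.aestronglyMeasurable δ
    (ae_of_all _ fun ω => by simpa using ha' ω)
  have haξ : MemLp (fun ω => a ω * ξ ω) 2 P := hξ2.mul' ha_top
  have hSa : MemLp (fun ω => S ω * a ω) 2 P := ha_top.mul' hS
  have hterm : MemLp (fun ω => 2 * a ω * ξ ω + (ξ ω ^ 2 - (h : ℝ))) 2 P := by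
    have : (fun ω => 2 * a ω * ξ ω + (ξ ω ^ 2 - (h : ℝ))) =
        fun ω => 2 * (a ω * ξ ω) + (ξ ω ^ 2 - (h : ℝ)) := by
      ext ω; ring
    rw [this]
    exact (haξ.const_mul 2).add hξsq
  have hmem : MemLp (fun ω => S ω + (2 * a ω * ξ ω + (ξ ω ^ 2 - h))) 2 P := hS.add hterm
  refine ⟨hmem, ?_⟩
  -- moments
  have hEξ : ∫ ω, ξ ω ∂P = 0 := by
    rw [hξ.integral_eq]
    exact integral_id_gaussianReal
  have hEξ2 : ∫ ω, ξ ω ^ 2 ∂P = h := by
    have := hξ.integral_comp (f := fun x => x ^ 2) (by fun_prop)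
    simp only [Function.comp_def] at this
    rw [this, gauss_sq]
  have hξ2int : Integrable (fun ω => ξ ω ^ 2) P := hξ2.integrable_sq
  have hEξ2' : ∫ ω, (ξ ω ^ 2 - (h : ℝ)) ∂P = 0 := by
    rw [integral_sub hξ2int (integrable_const _), hEξ2]
    simp
  have hEξ4 : ∫ ω, (ξ ω ^ 2 - (h : ℝ)) ^ 2 ∂P = C4 * h ^ 2 := by
    have := hξ.integral_comp (f := fun x => (x ^ 2 - (h : ℝ)) ^ 2) (by fun_prop)
    simp only [Function.comp_def] at this
    rw [this, gauss_fourth]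
  -- orthogonality
  have hind1 : IndepFun (fun ω => S ω * a ω) ξ P :=
    hind.comp (φ := fun p : ℝ × ℝ => p.1 * p.2) (ψ := id) (by fun_prop) measurable_id
  have hind2 : IndepFun S (fun ω => ξ ω ^ 2 - (h : ℝ)) P :=
    hind.comp (φ := fun p : ℝ × ℝ => p.1) (ψ := fun x => x ^ 2 - (h : ℝ)) (by fun_prop)
      (by fun_prop)
  have hE1 : ∫ ω, (S ω * a ω) * ξ ω ∂P = 0 := by
    rw [hind1.integral_fun_mul_eq_mul_integral hSa.1 hξm.aestronglyMeasurable, hEξ, mul_zero]
  have hE2 : ∫ ω, S ω * (ξ ω ^ 2 - (h : ℝ)) ∂P = 0 := by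
    rw [hind2.integral_fun_mul_eq_mul_integral hS.1 hξsq.1, hEξ2', mul_zero]
  have hI1 : Integrable (fun ω => (S ω * a ω) * ξ ω) P := hSa.integrable_mul hξ2
  have hI2 : Integrable (fun ω => S ω * (ξ ω ^ 2 - (h : ℝ))) P := hS.integrable_mul hξsq
  have hexp : ∫ ω, (S ω + (2 * a ω * ξ ω + (ξ ω ^ 2 - h))) ^ 2 ∂P =
      ∫ ω, S ω ^ 2 ∂P + ∫ ω, (2 * a ω * ξ ω + (ξ ω ^ 2 - (h : ℝ))) ^ 2 ∂P := by
    have hpt : ∀ ω, (S ω + (2 * a ω * ξ ω + (ξ ω ^ 2 - h))) ^ 2 =
        S ω ^ 2 + (4 * ((S ω * a ω) * ξ ω) + (2 * (S ω * (ξ ω ^ 2 - (h : ℝ))) +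
          (2 * a ω * ξ ω + (ξ ω ^ 2 - (h : ℝ))) ^ 2)) := by
      intro ω; ring
    simp_rw [hpt]
    have hJ1 : Integrable (fun ω => 4 * ((S ω * a ω) * ξ ω)) P := hI1.const_mul 4
    have hJ2 : Integrable (fun ω => 2 * (S ω * (ξ ω ^ 2 - (h : ℝ)))) P := hI2.const_mul 2
    have hJ3 : Integrable (fun ω => 2 * (S ω * (ξ ω ^ 2 - (h : ℝ))) +
        (2 * a ω * ξ ω + (ξ ω ^ 2 - (h : ℝ))) ^ 2) P := hJ2.add hterm.integrable_sq
    have hJ4 : Integrable (fun ω => 4 * ((S ω * a ω) * ξ ω) + (2 * (S ω * (ξ ω ^ 2 - (h : ℝ))) +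
        (2 * a ω * ξ ω + (ξ ω ^ 2 - (h : ℝ))) ^ 2)) P := hJ1.add hJ3
    rw [integral_add hS.integrable_sq hJ4, integral_add hJ1 hJ3,
      integral_add hJ2 hterm.integrable_sq, integral_const_mul, integral_const_mul,
      hE1, hE2]
    ring
  rw [hexp]
  have hbound : ∫ ω, (2 * a ω * ξ ω + (ξ ω ^ 2 - (h : ℝ))) ^ 2 ∂P ≤
      ∫ ω, (8 * δ ^ 2 * ξ ω ^ 2 + 2 * (ξ ω ^ 2 - (h : ℝ)) ^ 2) ∂P := by
    have hJ5 : Integrable (fun ω => 8 * δ ^ 2 * ξ ω ^ 2 + 2 * (ξ ω ^ 2 - (h : ℝ)) ^ 2) P :=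
      (hξ2int.const_mul (8 * δ ^ 2)).add (hξsq.integrable_sq.const_mul 2)
    apply integral_mono hterm.integrable_sq hJ5
    intro ω
    have h1 : a ω ^ 2 ≤ δ ^ 2 := sq_le_sq.mpr (by rw [abs_of_nonneg hδ]; exact ha' ω)
    have h2 : a ω ^ 2 * ξ ω ^ 2 ≤ δ ^ 2 * ξ ω ^ 2 := mul_le_mul_of_nonneg_right h1 (sq_nonneg _)
    have h3 : 0 ≤ (2 * a ω * ξ ω - (ξ ω ^ 2 - (h : ℝ))) ^ 2 := sq_nonneg _
    simp only
    nlinarith [h2, h3]
  have hval : ∫ ω, (8 * δ ^ 2 * ξ ω ^ 2 + 2 * (ξ ω ^ 2 - (h : ℝ)) ^ 2) ∂P =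
      8 * δ ^ 2 * h + 2 * (C4 * h ^ 2) := by
    rw [integral_add (hξ2int.const_mul (8 * δ ^ 2)) (hξsq.integrable_sq.const_mul 2),
      integral_const_mul, integral_const_mul, hEξ2, hEξ4]
  linarith

lemma measurable_st (δ : ℝ) : ∀ j : ℕ, Measurable (fun x : ℕ → ℝ => st δ x j)
  | 0 => by simp only [st]; exact measurable_const
  | j + 1 => by
    have ih := measurable_st δ j
    simp only [st]
    have h1 : Measurable (fun x : ℕ → ℝ => x (j + 1) - (st δ x j).1) :=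
      (measurable_pi_apply _).sub ih.fst
    apply Measurable.ite
    · exact measurableSet_le measurable_const h1.abs
    · apply Measurable.prodMk
      · apply ih.fst.add
        apply Measurable.ite _ measurable_const measurable_const
        exact measurableSet_le measurable_const h1
      · exact (measurable_from_top (f := fun n : ℕ => n + 1)).comp ih.snd
    · exact ih

lemma measurable_clampd (δ : ℝ) : Measurable (clampd δ) := by
  unfold clampd
  fun_prop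

lemma measurable_Ssum (δ h : ℝ) : ∀ j : ℕ, Measurable (fun x : ℕ → ℝ => Ssum δ h x j)
  | 0 => by simp only [Ssum]; exact measurable_const
  | j + 1 => by
    have ih := measurable_Ssum δ h j
    have h1 := measurable_st δ j
    simp only [Ssum]
    have h2 : Measurable (fun x : ℕ → ℝ => x j) := measurable_pi_apply _
    have h3 : Measurable (fun x : ℕ → ℝ => x (j + 1)) := measurable_pi_apply _
    have h4 : Measurable (fun x : ℕ → ℝ => clampd δ (x j - (st δ x j).1)) :=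
      (measurable_clampd δ).comp (h2.sub h1.fst)
    exact ih.add (((measurable_const.mul h4).mul (h3.sub h2)).add
      (((h3.sub h2).pow_const 2).sub measurable_const))

variable {Ω : Type*} [MeasurableSpace Ω] {P : Measure Ω} {B : ℝ≥0 → Ω → ℝ}

/-- grid samples of the process -/
noncomputable def samp (B : ℝ≥0 → Ω → ℝ) (T : ℝ≥0) (M : ℕ) (ω : Ω) : ℕ → ℝ :=
  fun j => B ((j : ℝ≥0) * T / M) ω

lemma aemeasurable_samp (hB : IsPreBrownianReal B P) (T : ℝ≥0) (M : ℕ) :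
    AEMeasurable (samp B T M) P := by
  unfold samp
  exact aemeasurable_pi_lambda _ (fun j => hB.aemeasurable _)

lemma indep_samp (hB : IsPreBrownianReal B P) (T : ℝ≥0) {M : ℕ} (j : ℕ) :
    IndepFun (fun ω => fun i : ℕ => samp B T M ω (min i j))
      (fun ω => samp B T M ω (j + 1) - samp B T M ω j) P := by
  have hind := (hB.indepFun_shift ((j : ℝ≥0) * T / M)).symm
  have hmono : ∀ i : ℕ, ((min i j : ℕ) : ℝ≥0) * T / M ∈ Set.Iic ((j : ℝ≥0) * T / M) := by
    intro i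
    have : ((min i j : ℕ) : ℝ≥0) ≤ (j : ℝ≥0) := by exact_mod_cast min_le_right i j
    simp only [Set.mem_Iic]
    gcongr
  have hm1 : Measurable (fun y : Set.Iic ((j : ℝ≥0) * T / M) → ℝ => fun i : ℕ =>
      y ⟨_, hmono i⟩) := measurable_pi_lambda _ fun i => measurable_pi_apply _
  have hm2 : Measurable (fun z : ℝ≥0 → ℝ => z (T / M)) := by fun_prop
  have h := hind.comp hm1 hm2
  have hfun : (fun ω => samp B T M ω (j + 1) - samp B T M ω j) =
      (fun z : ℝ≥0 → ℝ => z (T / M)) ∘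
        fun ω t => B ((j : ℝ≥0) * T / M + t) ω - B ((j : ℝ≥0) * T / M) ω := by
    funext ω
    have ht : ((j + 1 : ℕ) : ℝ≥0) * T / M = (j : ℝ≥0) * T / M + T / M := by
      push_cast
      ring
    simp only [samp, Function.comp_def, ht]
  rw [hfun]
  exact h

lemma law_incr (hB : IsPreBrownianReal B P) (T : ℝ≥0) {M : ℕ} (j : ℕ) :
    HasLaw (fun ω => samp B T M ω (j + 1) - samp B T M ω j) (gaussianReal 0 (T / M)) P := by
  have h := hB.hasLaw_sub (((j + 1 : ℕ) : ℝ≥0) * T / M) ((j : ℝ≥0) * T / M)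
  have hd : nndist (((((j + 1 : ℕ) : ℝ≥0) * T / M : ℝ≥0)) : ℝ) ((((j : ℝ≥0) * T / M : ℝ≥0)) : ℝ)
      = T / M := by
    ext
    rw [coe_nndist, Real.dist_eq]
    push_cast
    have : ((j : ℝ) + 1) * T / M - j * T / M = T / M := by ring
    rw [this, abs_of_nonneg (by positivity)]
  rw [← hd]
  exact h

lemma Ssum_L2 (hB : IsPreBrownianReal B P) (T : ℝ≥0) {M : ℕ} {δ : ℝ} (hδ : 0 ≤ δ) (j : ℕ) :
    MemLp (fun ω => Ssum δ ((T : ℝ) / M) (samp B T M ω) j) 2 P ∧
    ∫ ω, (Ssum δ ((T : ℝ) / M) (samp B T M ω) j) ^ 2 ∂P ≤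
      j * (8 * δ ^ 2 * ((T : ℝ) / M) + 2 * (C4 * ((T : ℝ) / M) ^ 2)) := by
  have : IsProbabilityMeasure P := hB.isGaussianProcess.isProbabilityMeasure
  induction j with
  | zero => simp [Ssum]
  | succ j ih =>
    obtain ⟨ih1, ih2⟩ := ih
    -- past functionals
    have hdep : ∀ ω, Ssum δ ((T : ℝ) / M) (samp B T M ω) j =
        Ssum δ ((T : ℝ) / M) (fun i => samp B T M ω (min i j)) j := by
      intro ω
      apply Ssum_congr
      intro i hi
      rw [min_eq_left hi]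
    have hdep2 : ∀ ω, clampd δ (samp B T M ω j - (st δ (samp B T M ω) j).1) =
        clampd δ ((fun i => samp B T M ω (min i j)) j -
          (st δ (fun i => samp B T M ω (min i j)) j).1) := by
      intro ω
      rw [st_congr (x := samp B T M ω) (y := fun i => samp B T M ω (min i j)) j
        (fun i hi => by rw [min_eq_left hi])]
      simp
    have hΦ : Measurable (fun x : ℕ → ℝ => (Ssum δ ((T : ℝ) / M) x j,
        clampd δ (x j - (st δ x j).1))) :=
      (measurable_Ssum δ _ j).prodMk ((measurable_clampd δ).comp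
        ((measurable_pi_apply _).sub (measurable_st δ j).fst))
    have hind := (indep_samp hB T (M := M) j).comp hΦ measurable_id
    have hind' : IndepFun (fun ω => (Ssum δ ((T : ℝ) / M) (samp B T M ω) j,
        clampd δ (samp B T M ω j - (st δ (samp B T M ω) j).1)))
        (fun ω => samp B T M ω (j + 1) - samp B T M ω j) P := by
      have hfun : (fun ω => (Ssum δ ((T : ℝ) / M) (samp B T M ω) j,
          clampd δ (samp B T M ω j - (st δ (samp B T M ω) j).1))) =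
          ((fun x : ℕ → ℝ => (Ssum δ ((T : ℝ) / M) x j, clampd δ (x j - (st δ x j).1))) ∘
            fun ω i => samp B T M ω (min i j)) := by
        funext ω
        simp only [Function.comp_def]
        exact Prod.ext (hdep ω) (hdep2 ω)
      rw [hfun]
      exact hind
    have ha : AEMeasurable (fun ω => clampd δ (samp B T M ω j - (st δ (samp B T M ω) j).1)) P :=
      ((measurable_clampd δ).comp ((measurable_pi_apply j).sub
        (measurable_st δ j).fst)).comp_aemeasurable (aemeasurable_samp hB T M)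
    have hstep := one_step hδ ih1 ha (fun ω => abs_clampd_le hδ _) (law_incr hB T (M := M) j) hind'
    have hcast : (((T / M : ℝ≥0)) : ℝ) = (T : ℝ) / M := by push_cast; rfl
    rw [hcast] at hstep
    refine ⟨?_, ?_⟩
    · simpa only [Ssum] using hstep.1
    · have h2 := hstep.2
      simp only [Ssum]
      push_cast
      linarith

end Pool.Agent.Helper47.Knight
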