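import Mathlib
import Pool.Agent.Helper47.Knight.L2

/-!
Almost sure properties of Brownian paths: atomless maxima.
-/

open scoped NNReal Topology ENNReal
open Set Filter MeasureTheory ProbabilityTheory

namespace Pool.Agent.Helper47.Knight

lemma measure_add_eq_zero {Ω : Type*} [MeasurableSpace Ω] {P : Measure Ω} [IsProbabilityMeasure P]
    {X Y : Ω → ℝ} (hX : AEMeasurable X P) (hY : AEMeasurable Y P) (hXY : IndepFun X Y P)
    (hat : ∀ x, P {ω | X ω = x} = 0) (v : ℝ) : P {ω | X ω + Y ω = v} = 0 := by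
  have hpair : P.map (fun ω => (Y ω, X ω)) = (P.map Y).prod (P.map X) :=
    hXY.symm.map_prod_eq_prod_map_map hY hX
  have hms : MeasurableSet {p : ℝ × ℝ | p.2 + p.1 = v} :=
    measurableSet_eq_fun (by fun_prop) (by fun_prop)
  have h1 : P {ω | X ω + Y ω = v} = P.map (fun ω => (Y ω, X ω)) {p : ℝ × ℝ | p.2 + p.1 = v} := by
    rw [Measure.map_apply_of_aemeasurable (hY.prodMk hX) hms]
    rfl
  have : IsProbabilityMeasure (P.map X) := Measure.isProbabilityMeasure_map hX
  rw [h1, hpair, Measure.measure_prod_null hms]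
  refine ae_of_all _ fun y => ?_
  have h2 : (Prod.mk y ⁻¹' {p : ℝ × ℝ | p.2 + p.1 = v}) = {v - y} := by
    ext x
    simp only [mem_preimage, mem_ofPred_eq, mem_singleton_iff]
    constructor
    · intro h; linarith
    · intro h; linarith
  simp only [Pi.zero_apply]
  rw [h2, Measure.map_apply_of_aemeasurable hX (measurableSet_singleton _)]
  exact hat (v - y)

lemma exists_nnrat_btwn' {x y : ℝ≥0} (h : x < y) : ∃ q : ℚ≥0, x < (q : ℝ≥0) ∧ (q : ℝ≥0) < y := by
  have hr : (x : ℝ) < y := by exact_mod_cast h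
  obtain ⟨q, hq1, hq2⟩ := exists_rat_btwn hr
  have hq0 : 0 ≤ q := by
    have : (0 : ℝ) < q := lt_of_le_of_lt x.coe_nonneg hq1
    exact_mod_cast this.le
  lift q to ℚ≥0 using hq0
  have hc : (((q : ℚ)) : ℝ) = ((q : ℝ≥0) : ℝ) := Real.ext_cauchy rfl
  rw [hc] at hq1 hq2
  exact ⟨q, by exact_mod_cast hq1, by exact_mod_cast hq2⟩

/-- index set: nonnegative rationals at most one -/
abbrev Q1 : Type := {q : ℚ≥0 // q ≤ 1}

instance : Nonempty Q1 := ⟨⟨0, zero_le⟩⟩

/-- the maximum of `w` on `[a, a + L]` for continuous `w` -/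
noncomputable def maxOn (w : ℝ≥0 → ℝ) (a L : ℝ≥0) : ℝ := ⨆ q : Q1, w (a + (q.1 : ℝ≥0) * L)

lemma Q1_le (q : Q1) : ((q.1 : ℚ≥0) : ℝ≥0) ≤ 1 := by
  exact_mod_cast q.2

lemma maxOn_bdd {w : ℝ≥0 → ℝ} (hw : Continuous w) (a L : ℝ≥0) :
    BddAbove (range fun q : Q1 => w (a + (q.1 : ℝ≥0) * L)) := by
  have hc : IsCompact ((fun s : ℝ≥0 => w (a + s * L)) '' Icc 0 1) :=
    isCompact_Icc.image (by fun_prop)
  refine hc.bddAbove.mono ?_
  rintro _ ⟨q, rfl⟩
  exact ⟨(q.1 : ℝ≥0), ⟨zero_le, Q1_le q⟩, rfl⟩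

lemma le_maxOn {w : ℝ≥0 → ℝ} (hw : Continuous w) (a L : ℝ≥0) {s : ℝ≥0} (hs : s ≤ 1) :
    w (a + s * L) ≤ maxOn w a L := by
  by_contra hcon
  push Not at hcon
  have hbd := maxOn_bdd hw a L
  have hq : ∀ q : Q1, w (a + (q.1 : ℝ≥0) * L) ≤ maxOn w a L := fun q => le_ciSup hbd q
  rcases hs.eq_or_lt with h | h
  · subst h
    have := hq ⟨1, le_rfl⟩
    simp only [NNRat.cast_one] at this
    exact absurd hcon (not_lt.mpr this)
  · have hopen : IsOpen {s : ℝ≥0 | maxOn w a L < w (a + s * L)} :=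
      isOpen_lt continuous_const (by fun_prop)
    have hnb : {s : ℝ≥0 | maxOn w a L < w (a + s * L)} ∈ 𝓝 s := hopen.mem_nhds hcon
    have hnb' : {s : ℝ≥0 | maxOn w a L < w (a + s * L)} ∈ 𝓝[≥] s := nhdsWithin_le_nhds hnb
    obtain ⟨u, hu1, hu2⟩ := mem_nhdsGE_iff_exists_Ico_subset.mp hnb'
    have hu1' : s < u := hu1
    obtain ⟨q, hq1, hq2⟩ := exists_nnrat_btwn' (lt_min hu1' h)
    have hqle : q ≤ 1 := by
      have : (q : ℝ≥0) ≤ 1 := (hq2.le.trans (min_le_right _ _))
      exact_mod_cast this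
    have h1 := hq ⟨q, hqle⟩
    have h2 : (q : ℝ≥0) ∈ Ico s u := ⟨hq1.le, lt_of_lt_of_le hq2 (min_le_left _ _)⟩
    have h3 := hu2 h2
    exact absurd h3 (not_lt.mpr h1)

lemma maxOn_le {w : ℝ≥0 → ℝ} (a L : ℝ≥0) {v : ℝ} (h : ∀ s ≤ 1, w (a + s * L) ≤ v) :
    maxOn w a L ≤ v := ciSup_le fun q => h _ (Q1_le q)

lemma maxOn_eq {w : ℝ≥0 → ℝ} (hw : Continuous w) (a L : ℝ≥0) {v : ℝ}
    (h : ∀ s ≤ 1, w (a + s * L) ≤ v) {s₀ : ℝ≥0} (hs : s₀ ≤ 1) (h0 : w (a + s₀ * L) = v) :
    maxOn w a L = v :=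
  le_antisymm (maxOn_le a L h) (h0 ▸ le_maxOn hw a L hs)

lemma maxOn_shift {w : ℝ≥0 → ℝ} (hw : Continuous w) (a L : ℝ≥0) :
    maxOn w a L = w a + maxOn (fun t => w (a + t) - w a) 0 L := by
  have hw' : Continuous (fun t => w (a + t) - w a) := by fun_prop
  apply le_antisymm
  · apply maxOn_le
    intro s hs
    have := le_maxOn hw' 0 L hs
    simp only [zero_add] at this
    linarith
  · have : maxOn (fun t => w (a + t) - w a) 0 L ≤ maxOn w a L - w a := by
      apply maxOn_le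
      intro s hs
      have := le_maxOn hw a L hs
      simp only [zero_add]
      linarith
    linarith

variable {Ω : Type*} [MeasurableSpace Ω] {P : Measure Ω} {B : ℝ≥0 → Ω → ℝ}

lemma measurable_maxOn (a L : ℝ≥0) : Measurable (fun w : ℝ≥0 → ℝ => maxOn w a L) := by
  unfold maxOn
  exact Measurable.iSup (fun q => measurable_pi_apply _)

lemma gauss_atomless (hB : IsPreBrownianReal B P) {s t : ℝ≥0} (hst : s < t) (x : ℝ) :
    P {ω | B t ω - B s ω = x} = 0 := by
  have hlaw := hB.hasLaw_sub t s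
  have hne : nndist (t : ℝ) (s : ℝ) ≠ 0 := by
    rw [Ne, nndist_eq_zero]
    exact_mod_cast hst.ne'
  have h := hlaw.measure_eq (p := fun y => y = x) (by simp)
  simp only [Pi.sub_apply] at h
  rw [h]
  have := nullSingletonClass_gaussianReal (μ := 0) hne
  simp

lemma gauss_atomless0 (hB : IsPreBrownianReal B P) {t : ℝ≥0} (ht : 0 < t) (x : ℝ) :
    P {ω | B t ω = x} = 0 := by
  have hlaw := hB.hasLaw_eval t
  have h := hlaw.measure_eq (p := fun y => y = x) (by simp)
  rw [h]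
  have := nullSingletonClass_gaussianReal (μ := 0) ht.ne'
  simp

/-- the process restricted to rational multiples of `L` after time `a` -/
lemma maxOn_dep {w : ℝ≥0 → ℝ} (a L : ℝ≥0) :
    maxOn w a L = ⨆ q : Q1, w (a + (q.1 : ℝ≥0) * L) := rfl

lemma aemeasurable_maxOn_shift (hB : IsPreBrownianReal B P) (a L : ℝ≥0) :
    AEMeasurable (fun ω => maxOn (fun t => B (a + t) ω - B a ω) 0 L) P := by
  unfold maxOn
  apply AEMeasurable.iSup
  intro q
  exact (hB.aemeasurable _).sub (hB.aemeasurable _)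

lemma aemeasurable_maxOn (hB : IsPreBrownianReal B P) (a L : ℝ≥0) :
    AEMeasurable (fun ω => maxOn (fun t => B t ω) a L) P := by
  unfold maxOn
  apply AEMeasurable.iSup
  intro q
  exact hB.aemeasurable _

/-- (R): the maximum on `[a, a+L]`, `a > 0`, is atomless. -/
lemma maxOn_atomless (hB : IsBrownianReal B P) {a : ℝ≥0} (ha : 0 < a) (L : ℝ≥0) (v : ℝ) :
    ∀ᵐ ω ∂P, maxOn (fun t => B t ω) a L ≠ v := by
  have hB' := hB.toIsPreBrownianReal
  have : IsProbabilityMeasure P := hB'.isGaussianProcess.isProbabilityMeasure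
  have hind := (hB'.indepFun_shift a).symm
  have hm1 : Measurable (fun y : Set.Iic a → ℝ => y ⟨a, Set.self_mem_Iic⟩) :=
    measurable_pi_apply (⟨a, Set.self_mem_Iic⟩ : Set.Iic a)
  have hm2 : Measurable (fun z : ℝ≥0 → ℝ => maxOn z 0 L) := measurable_maxOn 0 L
  have h := hind.comp hm1 hm2
  have hI : IndepFun (fun ω => B a ω) (fun ω => maxOn (fun t => B (a + t) ω - B a ω) 0 L) P := h
  have h0 := measure_add_eq_zero (hB'.aemeasurable a) (aemeasurable_maxOn_shift hB' a L) hI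
    (gauss_atomless0 hB' ha) v
  have h1 : ∀ᵐ ω ∂P, ¬ (B a ω + maxOn (fun t => B (a + t) ω - B a ω) 0 L = v) := by
    rw [ae_iff]
    simpa using h0
  filter_upwards [h1, hB.cont] with ω h1 h2
  rw [maxOn_shift h2]
  exact h1

/-- (S): the maximum on `[a, a+L]` differs from the minimum on `[d, d+L']` for `a + L < d`. -/
lemma maxOn_ne_minOn (hB : IsBrownianReal B P) {a L d L' : ℝ≥0} (had : a + L < d) :
    ∀ᵐ ω ∂P, maxOn (fun t => B t ω) a L + maxOn (fun t => - B t ω) d L' ≠ 0 := by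
  have hB' := hB.toIsPreBrownianReal
  have : IsProbabilityMeasure P := hB'.isGaussianProcess.isProbabilityMeasure
  set c := a + L with hc
  have hqc : ∀ q : Q1, a + (q.1 : ℝ≥0) * L ≤ c := by
    intro q
    rw [hc]
    gcongr
    calc (q.1 : ℝ≥0) * L ≤ 1 * L := by gcongr; exact Q1_le q
      _ = L := one_mul _
  -- first step : U - B d is atomless
  have hind1 := (hB'.indepFun_shift c).symm
  have hmU : Measurable (fun y : Set.Iic c → ℝ =>
      (⨆ q : Q1, y ⟨a + (q.1 : ℝ≥0) * L, hqc q⟩) - y ⟨c, Set.self_mem_Iic⟩) :=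
    (Measurable.iSup fun q : Q1 =>
      measurable_pi_apply (⟨a + (q.1 : ℝ≥0) * L, hqc q⟩ : Set.Iic c)).sub
      (measurable_pi_apply (⟨c, Set.self_mem_Iic⟩ : Set.Iic c))
  have hm2 : Measurable (fun z : ℝ≥0 → ℝ => - z (d - c)) := (by fun_prop)
  have hI1 : IndepFun (fun ω => maxOn (fun t => B t ω) a L - B c ω)
      (fun ω => - (B (c + (d - c)) ω - B c ω)) P := hind1.comp hmU hm2
  have hcd : c + (d - c) = d := add_tsub_cancel_of_le had.le
  rw [hcd] at hI1
  have hat1 : ∀ x, P {ω | - (B d ω - B c ω) = x} = 0 := by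
    intro x
    have := gauss_atomless hB' had (-x)
    have hset : {ω | - (B d ω - B c ω) = x} = {ω | B d ω - B c ω = -x} := by
      ext ω
      simp only [mem_ofPred_eq]
      constructor <;> intro h <;> linarith
    rw [hset]
    exact this
  have hat2 : ∀ x, P {ω | maxOn (fun t => B t ω) a L - B d ω = x} = 0 := by
    intro x
    have h0 := measure_add_eq_zero (((hB'.aemeasurable d).sub (hB'.aemeasurable c)).neg)
      ((aemeasurable_maxOn hB' a L).sub (hB'.aemeasurable c)) hI1.symm hat1 x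
    have hset : {ω | maxOn (fun t => B t ω) a L - B d ω = x} =
        {ω | (-(B d - B c)) ω + ((fun ω => maxOn (fun t => B t ω) a L) - B c) ω = x} := by
      ext ω
      simp only [mem_ofPred_eq, Pi.neg_apply, Pi.sub_apply]
      constructor <;> intro h <;> linarith
    rw [hset]
    exact h0
  -- second step
  have hind2 := (hB'.indepFun_shift d).symm
  have hmU2 : Measurable (fun y : Set.Iic d → ℝ =>
      (⨆ q : Q1, y ⟨a + (q.1 : ℝ≥0) * L, (hqc q).trans had.le⟩) - y ⟨d, Set.self_mem_Iic⟩) :=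
    (Measurable.iSup fun q : Q1 =>
      measurable_pi_apply (⟨a + (q.1 : ℝ≥0) * L, (hqc q).trans had.le⟩ : Set.Iic d)).sub
      (measurable_pi_apply (⟨d, Set.self_mem_Iic⟩ : Set.Iic d))
  have hm3 : Measurable (fun z : ℝ≥0 → ℝ => maxOn (fun t => - z t) 0 L') := by
    unfold maxOn
    exact Measurable.iSup fun q => (measurable_pi_apply _).neg
  have hI2 : IndepFun (fun ω => maxOn (fun t => B t ω) a L - B d ω)
      (fun ω => maxOn (fun t => - (B (d + t) ω - B d ω)) 0 L') P := hind2.comp hmU2 hm3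
  have hmeas : AEMeasurable (fun ω => maxOn (fun t => - (B (d + t) ω - B d ω)) 0 L') P := by
    unfold maxOn
    apply AEMeasurable.iSup
    intro q
    exact ((hB'.aemeasurable _).sub (hB'.aemeasurable _)).neg
  have h0 := measure_add_eq_zero ((aemeasurable_maxOn hB' a L).sub (hB'.aemeasurable d)) hmeas hI2
    hat2 0
  have h1 : ∀ᵐ ω ∂P, ¬ (maxOn (fun t => B t ω) a L - B d ω +
      maxOn (fun t => - (B (d + t) ω - B d ω)) 0 L' = 0) := by
    rw [ae_iff]
    simpa using h0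
  filter_upwards [h1, hB.cont] with ω h1 h2
  have h2' : Continuous (fun t => - B t ω) := h2.neg
  rw [maxOn_shift h2' d L']
  intro hcon
  apply h1
  have : (fun t => - (B (d + t) ω - B d ω)) = (fun t => -B (d + t) ω - -B d ω) := by
    funext t; ring
  rw [this]
  linarith

/-- unboundedness of Brownian paths -/
lemma unbounded_ae (hB : IsPreBrownianReal B P) : ∀ᵐ ω ∂P, ∀ C : ℝ, ∃ t, C < |B t ω| := by
  have hprob : IsProbabilityMeasure P := hB.isGaussianProcess.isProbabilityMeasure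
  have key : ∀ C : ℕ, ∀ᵐ ω ∂P, ∃ t, (C : ℝ) < |B t ω| := by
    intro C
    rw [ae_iff]
    -- bound by the probability at one time
    have hbound : ∀ t : ℝ≥0, 0 < t → P {ω | ¬ ∃ t, (C : ℝ) < |B t ω|} ≤
        ENNReal.ofReal ((Real.sqrt (2 * Real.pi * t))⁻¹) * ENNReal.ofReal (2 * C) := by
      intro t ht
      have hsub : {ω | ¬ ∃ t, (C : ℝ) < |B t ω|} ⊆ {ω | B t ω ∈ Icc (-(C : ℝ)) C} := by
        intro ω hω
        simp only [not_exists, not_lt, mem_ofPred_eq] at hω
        have := hω t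
        rw [abs_le] at this
        exact this
      refine (measure_mono hsub).trans ?_
      have h := (hB.hasLaw_eval t).measure_eq (p := fun y => y ∈ Icc (-(C : ℝ)) C)
        measurableSet_Icc
      rw [h]
      have hs : {x : ℝ | x ∈ Icc (-(C : ℝ)) C} = Icc (-(C : ℝ)) C := rfl
      rw [hs, gaussianReal_apply 0 ht.ne']
      have hpdf : ∀ x, gaussianPDF 0 t x ≤ ENNReal.ofReal ((Real.sqrt (2 * Real.pi * t))⁻¹) := by
        intro x
        unfold gaussianPDF gaussianPDFReal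
        apply ENNReal.ofReal_le_ofReal
        have h1 : Real.exp (-(x - 0) ^ 2 / (2 * (t : ℝ))) ≤ 1 := by
          apply Real.exp_le_one_iff.mpr
          apply div_nonpos_of_nonpos_of_nonneg
          · nlinarith [sq_nonneg (x - 0)]
          · positivity
        calc (Real.sqrt (2 * Real.pi * t))⁻¹ * Real.exp (-(x - 0) ^ 2 / (2 * (t : ℝ)))
            ≤ (Real.sqrt (2 * Real.pi * t))⁻¹ * 1 := by gcongr
          _ = _ := mul_one _
      calc ∫⁻ x in Icc (-(C : ℝ)) C, gaussianPDF 0 t x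
          ≤ ∫⁻ _ in Icc (-(C : ℝ)) C, ENNReal.ofReal ((Real.sqrt (2 * Real.pi * t))⁻¹) :=
            lintegral_mono fun x => hpdf x
        _ = ENNReal.ofReal ((Real.sqrt (2 * Real.pi * t))⁻¹) * volume (Icc (-(C : ℝ)) C) := by
            rw [setLIntegral_const]
        _ = _ := by
            rw [Real.volume_Icc]
            congr 2
            ring
    have hlim : Tendsto (fun m : ℕ => ENNReal.ofReal
        ((Real.sqrt (2 * Real.pi * ((m : ℝ≥0) : ℝ)))⁻¹) * ENNReal.ofReal (2 * C)) atTop (𝓝 0) := by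
      have h1 : Tendsto (fun m : ℕ => (Real.sqrt (2 * Real.pi * ((m : ℝ≥0) : ℝ)))⁻¹)
          atTop (𝓝 0) := by
        apply tendsto_inv_atTop_zero.comp
        apply Real.tendsto_sqrt_atTop.comp
        apply Tendsto.const_mul_atTop (by positivity)
        simpa using tendsto_natCast_atTop_atTop (R := ℝ)
      have h2 := ENNReal.tendsto_ofReal h1
      rw [ENNReal.ofReal_zero] at h2
      have h3 := ENNReal.Tendsto.mul_const (b := ENNReal.ofReal (2 * C)) h2
        (Or.inr ENNReal.ofReal_ne_top)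
      simpa using h3
    have hle : P {ω | ¬ ∃ t, (C : ℝ) < |B t ω|} ≤ 0 := by
      refine ge_of_tendsto hlim ?_
      filter_upwards [eventually_gt_atTop 0] with m hm
      exact hbound m (by exact_mod_cast hm)
    exact le_antisymm hle zero_le
  have hall : ∀ᵐ ω ∂P, ∀ C : ℕ, ∃ t, (C : ℝ) < |B t ω| := ae_all_iff.mpr key
  filter_upwards [hall] with ω hω C
  obtain ⟨n, hn⟩ := exists_nat_gt C
  obtain ⟨t, ht⟩ := hω n
  exact ⟨t, hn.trans ht⟩

end Pool.Agent.Helper47.Knight
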