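import Mathlib
import Pool.Agent.Helper47.Knight.Atomless

/-!
Almost sure convergence of the number of embedded steps.
-/

open scoped NNReal Topology ENNReal
open Set Filter MeasureTheory ProbabilityTheory

namespace Pool.Agent.Helper47.Knight

lemma maxOn_eq_of_max {w : ℝ≥0 → ℝ} (hw : Continuous w) {a L t : ℝ≥0} (hat : a ≤ t)
    (htL : t ≤ a + L) (h : ∀ u, a ≤ u → u ≤ a + L → w u ≤ w t) : maxOn w a L = w t := by
  rcases eq_or_lt_of_le (zero_le : 0 ≤ L) with hL | hL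
  · have hta : t = a := le_antisymm (by rw [← hL, add_zero] at htL; exact htL) hat
    subst hta
    apply maxOn_eq hw t L (s₀ := 0) _ zero_le (by simp)
    intro s hs
    rw [← hL]
    simp
  · have hs₀ : (t - a) / L ≤ 1 := by
      rw [div_le_one hL]
      exact tsub_le_iff_left.mpr htL
    apply maxOn_eq hw a L (s₀ := (t - a) / L) _ hs₀
    · congr 1
      rw [div_mul_cancel₀ _ hL.ne', add_tsub_cancel_of_le hat]
    · intro s hs
      apply h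
      · exact le_self_add
      · gcongr
        calc s * L ≤ 1 * L := by gcongr
          _ = L := one_mul _

/-- dyadic levels of the embedded walk -/
lemma IsEmb.level {b : ℝ≥0 → ℝ} {δ : ℝ} {τ : ℕ → ℝ≥0} (he : IsEmb b δ τ) (hδ : 0 ≤ δ)
    (h0 : b 0 = 0) : ∀ k, ∃ z : ℤ, b (τ k) = z * δ
  | 0 => ⟨0, by simp [he.zero, h0]⟩
  | k + 1 => by
    obtain ⟨z, hz⟩ := he.level hδ h0 k
    rcases (abs_eq hδ).mp (he.eq k) with h | h
    · refine ⟨z + 1, ?_⟩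
      push_cast
      linarith
    · refine ⟨z - 1, ?_⟩
      push_cast
      linarith

/-- (R) property of a path -/
def PropR (b : ℝ≥0 → ℝ) : Prop :=
  ∀ a L : ℚ≥0, 0 < a → ∀ (n : ℕ) (z : ℤ), maxOn b (a : ℝ≥0) (L : ℝ≥0) ≠ z * ((2 : ℝ) ^ n)⁻¹

lemma cross_aux {b : ℝ≥0 → ℝ} (hb : Continuous b) {n : ℕ} (hR : PropR b) {τ₀ τ₁ r : ℝ≥0}
    (h01 : τ₀ < τ₁) (h1r : τ₁ < r) (hl : ∃ z : ℤ, b τ₁ = z * ((2 : ℝ) ^ n)⁻¹)
    (hlow : ∀ s, τ₀ ≤ s → s < τ₁ → b s ≤ b τ₁) : ∃ s, τ₁ < s ∧ s < r ∧ b τ₁ < b s := by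
  by_contra hcon
  push Not at hcon
  obtain ⟨a, ha1, ha2⟩ := exists_nnrat_btwn' h01
  obtain ⟨c, hc1, hc2⟩ := exists_nnrat_btwn' h1r
  have hac : (a : ℝ≥0) < c := ha2.trans hc1
  have hac' : a < c := by exact_mod_cast hac
  obtain ⟨z, hz⟩ := hl
  have hL : ((a : ℝ≥0)) + ((c - a : ℚ≥0) : ℝ≥0) = c := by
    have : a + (c - a) = c := add_tsub_cancel_of_le hac'.le
    exact_mod_cast congrArg (fun q : ℚ≥0 => (q : ℝ≥0)) this
  have ha0 : 0 < a := by
    have : (0 : ℝ≥0) < a := lt_of_le_of_lt zero_le ha1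
    exact_mod_cast this
  refine hR a (c - a) ha0 n z ?_
  rw [← hz]
  apply maxOn_eq_of_max hb ha2.le (by rw [hL]; exact hc1.le)
  intro u hu1 hu2
  rw [hL] at hu2
  rcases lt_trichotomy u τ₁ with h | h | h
  · exact hlow u (ha1.le.trans hu1) h
  · rw [h]
  · exact hcon u h (lt_of_le_of_lt hu2 hc2)

lemma PropR.cross {b : ℝ≥0 → ℝ} (hb : Continuous b) (h0 : b 0 = 0) (hR : PropR b)
    (hR' : PropR (fun t => - b t)) {n : ℕ} {τ : ℕ → ℝ≥0} (he : IsEmb b ((2 : ℝ) ^ n)⁻¹ τ)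
    (k : ℕ) (r : ℝ≥0) (hr : τ (k + 1) < r) :
    ∃ s, τ (k + 1) < s ∧ s < r ∧ ((2 : ℝ) ^ n)⁻¹ < |b s - b (τ k)| := by
  have hδ : (0 : ℝ) < ((2 : ℝ) ^ n)⁻¹ := by positivity
  rcases (abs_eq hδ.le).mp (he.eq k) with h | h
  · obtain ⟨s, hs1, hs2, hs3⟩ := cross_aux hb hR (he.lt k) hr (he.level hδ.le h0 (k + 1))
      (fun s hs hs' => by
        have := he.small k s hs hs'
        rw [abs_lt] at this
        linarith)
    refine ⟨s, hs1, hs2, ?_⟩
    rw [lt_abs]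
    left
    linarith
  · have hb' : Continuous (fun t => - b t) := hb.neg
    obtain ⟨s, hs1, hs2, hs3⟩ := cross_aux (n := n) hb' hR' (he.lt k) hr (by
        obtain ⟨z, hz⟩ := he.level hδ.le h0 (k + 1)
        refine ⟨-z, ?_⟩
        rw [hz]
        push_cast
        ring)
      (fun s hs hs' => by
        have := he.small k s hs hs'
        rw [abs_lt] at this
        linarith)
    refine ⟨s, hs1, hs2, ?_⟩
    rw [lt_abs]
    right
    linarith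

lemma PropR.ne_level {b : ℝ≥0 → ℝ} (hb : Continuous b) (hR : PropR b) {T : ℚ≥0} (hT : 0 < T)
    (n : ℕ) (z : ℤ) : b T ≠ z * ((2 : ℝ) ^ n)⁻¹ := by
  have h := hR T 0 hT n z
  have h2 : maxOn b (T : ℝ≥0) ((0 : ℚ≥0) : ℝ≥0) = b T := by
    apply maxOn_eq_of_max hb le_rfl (by simp)
    intro u hu1 hu2
    have : u = T := le_antisymm (by simpa using hu2) hu1
    rw [this]
  rw [h2] at h
  exact h

/-- For a good path the compensated sums converge, for every level `n` and rational `T > 0`. -/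
lemma Ssum_tendsto {b : ℝ≥0 → ℝ} (hb : Continuous b) (h0 : b 0 = 0)
    (hunb : ∀ C : ℝ, ∃ t, C < |b t|) (hR : PropR b) (hR' : PropR (fun t => - b t))
    {T : ℚ≥0} (hT : 0 < T) (n : ℕ) :
    (∀ᶠ M : ℕ in atTop, st ((2 : ℝ) ^ n)⁻¹ (fun j => b ((j : ℝ≥0) * (T : ℝ≥0) / M)) M =
      (b (knightTime b n (idx (knightTime b n) T)), idx (knightTime b n) T)) ∧
    Tendsto (fun M : ℕ => Ssum ((2 : ℝ) ^ n)⁻¹ (((T : ℝ≥0) : ℝ) / M)
      (fun j => b ((j : ℝ≥0) * (T : ℝ≥0) / M)) M) atTop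
      (𝓝 ((b T - b (knightTime b n (idx (knightTime b n) T))) ^ 2 - ((T : ℝ≥0) : ℝ) +
        (((2 : ℝ) ^ n)⁻¹) ^ 2 * idx (knightTime b n) T)) := by
  have he := knightTime_isEmb hb hunb n
  have hδ : (0 : ℝ) < ((2 : ℝ) ^ n)⁻¹ := by positivity
  obtain ⟨h1, h2⟩ := he.idx_spec hb hδ (T : ℝ≥0)
  have h1' : knightTime b n (idx (knightTime b n) T) < (T : ℝ≥0) := by
    refine lt_of_le_of_ne h1 ?_
    intro heq
    obtain ⟨z, hz⟩ := he.level hδ.le h0 (idx (knightTime b n) T)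
    rw [heq] at hz
    exact hR.ne_level hb hT n z hz
  have hd : ∀ η : ℝ, 0 < η → _ := fun η hη => disc_converges hb he hδ h0 h1' h2
    (fun k _ r hr => PropR.cross hb h0 hR hR' he k r hr) hη
  refine ⟨?_, ?_⟩
  · filter_upwards [hd 1 one_pos] with M hM
    exact hM.1
  · rw [Metric.tendsto_atTop]
    intro ε hε
    set N := idx (knightTime b n) T with hN
    have hη : 0 < ε / (2 * (2 * ((2 : ℝ) ^ n)⁻¹ * (N + 1))) := by positivity
    obtain ⟨M₀, hM₀⟩ := eventually_atTop.mp (hd _ hη)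
    refine ⟨M₀, fun M hM => ?_⟩
    have h3 := (hM₀ M hM).2
    rw [Real.dist_eq]
    refine lt_of_le_of_lt h3 ?_
    have hN0 : (0 : ℝ) ≤ N := Nat.cast_nonneg _
    have h4 : 2 * ((2 : ℝ) ^ n)⁻¹ * (N * (ε / (2 * (2 * ((2 : ℝ) ^ n)⁻¹ * (N + 1))))) =
        (N / (N + 1)) * (ε / 2) := by
      field_simp
    rw [h4]
    have h5 : (N : ℝ) / (N + 1) ≤ 1 := by
      rw [div_le_one (by positivity)]
      linarith
    calc (N : ℝ) / (N + 1) * (ε / 2) ≤ 1 * (ε / 2) := by gcongr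
      _ < ε := by linarith

variable {Ω : Type*} [MeasurableSpace Ω] {P : Measure Ω} {B : ℝ≥0 → Ω → ℝ}

lemma lintegral_Ssum_le (hB : IsPreBrownianReal B P) (T : ℝ≥0) {δ : ℝ} (hδ : 0 ≤ δ) (M : ℕ)
    (hM : 0 < M) :
    ∫⁻ ω, ‖Ssum δ ((T : ℝ) / M) (samp B T M ω) M‖ₑ ^ 2 ∂P ≤
      ENNReal.ofReal (8 * δ ^ 2 * T + 2 * C4 * (T : ℝ) ^ 2 / M) := by
  obtain ⟨h1, h2⟩ := Ssum_L2 hB T (M := M) hδ M
  have h3 : ∫⁻ ω, ‖Ssum δ ((T : ℝ) / M) (samp B T M ω) M‖ₑ ^ 2 ∂P =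
      ENNReal.ofReal (∫ ω, (Ssum δ ((T : ℝ) / M) (samp B T M ω) M) ^ 2 ∂P) := by
    rw [ofReal_integral_eq_lintegral_ofReal h1.integrable_sq (ae_of_all _ fun _ => sq_nonneg _)]
    congr 1
    ext ω
    rw [← enorm_pow, Real.enorm_eq_ofReal (sq_nonneg _)]
  rw [h3]
  apply ENNReal.ofReal_le_ofReal
  refine h2.trans (le_of_eq ?_)
  have : (M : ℝ) ≠ 0 := by exact_mod_cast hM.ne'
  field_simp

lemma ae_conv_aux (hB : IsPreBrownianReal B P) (T : ℝ≥0) :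
    ∀ᵐ ω ∂P, Tendsto (fun n : ℕ => liminf (fun M : ℕ =>
      ‖Ssum ((2 : ℝ) ^ n)⁻¹ ((T : ℝ) / M) (samp B T M ω) M‖ₑ ^ 2) atTop) atTop (𝓝 0) := by
  have hmeas : ∀ n M : ℕ, AEMeasurable (fun ω =>
      ‖Ssum ((2 : ℝ) ^ n)⁻¹ ((T : ℝ) / M) (samp B T M ω) M‖ₑ ^ 2) P := by
    intro n M
    have h1 : AEMeasurable (fun ω => Ssum ((2 : ℝ) ^ n)⁻¹ ((T : ℝ) / M) (samp B T M ω) M) P :=
      (measurable_Ssum _ _ M).comp_aemeasurable (aemeasurable_samp hB T M)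
    exact h1.enorm.pow_const 2
  have hfatou : ∀ n : ℕ, ∫⁻ ω, liminf (fun M : ℕ =>
      ‖Ssum ((2 : ℝ) ^ n)⁻¹ ((T : ℝ) / M) (samp B T M ω) M‖ₑ ^ 2) atTop ∂P ≤
      ENNReal.ofReal (8 * T * (1 / 4) ^ n) := by
    intro n
    refine (lintegral_liminf_le' (hmeas n)).trans ?_
    have hlim : Tendsto (fun M : ℕ => ENNReal.ofReal
        (8 * (((2 : ℝ) ^ n)⁻¹) ^ 2 * T + 2 * C4 * (T : ℝ) ^ 2 / M)) atTop
        (𝓝 (ENNReal.ofReal (8 * T * (1 / 4) ^ n))) := by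
      apply ENNReal.tendsto_ofReal
      have h1 : Tendsto (fun M : ℕ => 2 * C4 * (T : ℝ) ^ 2 / M) atTop (𝓝 0) :=
        tendsto_const_div_atTop_nhds_zero_nat _
      have h2 := h1.const_add (8 * (((2 : ℝ) ^ n)⁻¹) ^ 2 * T)
      rw [add_zero] at h2
      have h3 : 8 * (((2 : ℝ) ^ n)⁻¹) ^ 2 * (T : ℝ) = 8 * T * (1 / 4) ^ n := by
        have : (((2 : ℝ) ^ n)⁻¹) ^ 2 = (1 / 4) ^ n := by
          rw [← inv_pow, ← pow_mul, mul_comm n 2, pow_mul]
          norm_num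
        rw [this]
        ring
      rw [← h3]
      exact h2
    rw [← hlim.liminf_eq]
    refine liminf_le_liminf ?_
    filter_upwards [eventually_gt_atTop 0] with M hM
    exact lintegral_Ssum_le hB T (by positivity) M hM
  have hmeas2 : ∀ n : ℕ, AEMeasurable (fun ω => liminf (fun M : ℕ =>
      ‖Ssum ((2 : ℝ) ^ n)⁻¹ ((T : ℝ) / M) (samp B T M ω) M‖ₑ ^ 2) atTop) P := by
    intro n
    have h1 : Measurable (fun y : ℕ → ℝ≥0∞ => liminf (fun M => y M) atTop) :=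
      Measurable.liminf fun i => measurable_pi_apply i
    exact h1.comp_aemeasurable (aemeasurable_pi_lambda _ (hmeas n))
  have hsum : ∫⁻ ω, ∑' n : ℕ, liminf (fun M : ℕ =>
      ‖Ssum ((2 : ℝ) ^ n)⁻¹ ((T : ℝ) / M) (samp B T M ω) M‖ₑ ^ 2) atTop ∂P ≠ ∞ := by
    rw [lintegral_tsum hmeas2]
    have hle : ∑' n : ℕ, ∫⁻ ω, liminf (fun M : ℕ =>
        ‖Ssum ((2 : ℝ) ^ n)⁻¹ ((T : ℝ) / M) (samp B T M ω) M‖ₑ ^ 2) atTop ∂P ≤
        ∑' n : ℕ, ENNReal.ofReal (8 * T * (1 / 4) ^ n) := ENNReal.tsum_le_tsum hfatou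
    refine ne_top_of_le_ne_top ?_ hle
    have hs : Summable (fun n : ℕ => 8 * (T : ℝ) * (1 / 4) ^ n) :=
      (summable_geometric_of_lt_one (by norm_num) (by norm_num)).mul_left _
    rw [← ENNReal.ofReal_tsum_of_nonneg (fun n => by positivity) hs]
    exact ENNReal.ofReal_ne_top
  have hfin := ae_lt_top' (AEMeasurable.tsum hmeas2) hsum
  filter_upwards [hfin] with ω hω
  exact ENNReal.tendsto_atTop_zero_of_tsum_ne_top hω.ne

/-- The almost sure properties of the Brownian path used below. -/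
structure GoodPath (b : ℝ≥0 → ℝ) : Prop where
  cont : Continuous b
  zero : b 0 = 0
  unb : ∀ C : ℝ, ∃ t, C < |b t|
  R : PropR b
  R' : PropR (fun t => - b t)
  S : ∀ a L d L' : ℚ≥0, a + L < d → maxOn b a L + maxOn (fun t => - b t) d L' ≠ 0
  S' : ∀ a L d L' : ℚ≥0, a + L < d → maxOn (fun t => - b t) a L + maxOn b d L' ≠ 0
  conv : ∀ T : ℚ≥0, 0 < T →
    Tendsto (fun n : ℕ => (idx (knightTime b n) T : ℝ) / 4 ^ n) atTop (𝓝 ((T : ℝ≥0) : ℝ))

lemma propR_ae (hB : IsBrownianReal B P) : ∀ᵐ ω ∂P, PropR (fun t => B t ω) := by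
  unfold PropR
  rw [ae_all_iff]; intro a
  rw [ae_all_iff]; intro L
  rw [ae_all_iff]; intro ha
  rw [ae_all_iff]; intro n
  rw [ae_all_iff]; intro z
  exact maxOn_atomless hB (by exact_mod_cast ha) _ _

lemma propS_ae (hB : IsBrownianReal B P) : ∀ᵐ ω ∂P, ∀ a L d L' : ℚ≥0, a + L < d →
    maxOn (fun t => B t ω) a L + maxOn (fun t => - B t ω) d L' ≠ 0 := by
  rw [ae_all_iff]; intro a
  rw [ae_all_iff]; intro L
  rw [ae_all_iff]; intro d
  rw [ae_all_iff]; intro L'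
  rw [ae_all_iff]; intro h
  exact maxOn_ne_minOn hB (by exact_mod_cast h)

theorem goodPath_ae (hB : IsBrownianReal B P) : ∀ᵐ ω ∂P, GoodPath (fun t => B t ω) := by
  have hneg : IsBrownianReal (-B) P := hB.neg
  have hconv : ∀ᵐ ω ∂P, ∀ T : ℚ≥0, Tendsto (fun n : ℕ => liminf (fun M : ℕ =>
      ‖Ssum ((2 : ℝ) ^ n)⁻¹ (((T : ℝ≥0) : ℝ) / M) (samp B T M ω) M‖ₑ ^ 2) atTop) atTop (𝓝 0) :=
    ae_all_iff.mpr fun T => ae_conv_aux hB.toIsPreBrownianReal T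
  filter_upwards [hB.cont, hB.eval_zero_ae_eq_zero, unbounded_ae hB.toIsPreBrownianReal,
    propR_ae hB, propR_ae hneg, propS_ae hB, propS_ae hneg, hconv] with ω h1 h2 h3 h4 h5 h6 h7 h8
  have h5' : PropR (fun t => - B t ω) := h5
  refine ⟨h1, h2, h3, h4, h5', h6, ?_, ?_⟩
  · intro a L d L' h
    have h7' := h7 a L d L' h
    have hnn : (fun t => - (-B) t ω) = fun t => B t ω := by
      funext t
      simp
    rw [hnn] at h7'
    exact h7'
  · intro T hT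
    have hS := fun n => Ssum_tendsto h1 h2 h3 h4 h5' hT n
    set b := fun t => B t ω with hb
    -- liminf equals the square of the limit
    have hlim : ∀ n : ℕ, liminf (fun M : ℕ =>
        ‖Ssum ((2 : ℝ) ^ n)⁻¹ (((T : ℝ≥0) : ℝ) / M) (samp B T M ω) M‖ₑ ^ 2) atTop =
        ‖(b T - b (knightTime b n (idx (knightTime b n) T))) ^ 2 - ((T : ℝ≥0) : ℝ) +
        (((2 : ℝ) ^ n)⁻¹) ^ 2 * idx (knightTime b n) T‖ₑ ^ 2 := by
      intro n
      apply Tendsto.liminf_eq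
      exact ENNReal.Tendsto.pow ((hS n).2.enorm)
    have h8T := (h8 T).congr hlim
    -- hence the quantity itself tends to 0
    have h9 : Tendsto (fun n : ℕ => (b T - b (knightTime b n (idx (knightTime b n) T))) ^ 2 -
        ((T : ℝ≥0) : ℝ) + (((2 : ℝ) ^ n)⁻¹) ^ 2 * idx (knightTime b n) T) atTop (𝓝 0) := by
      rw [tendsto_zero_iff_enorm_tendsto_zero]
      have h10 : Tendsto (fun n : ℕ => (‖(b T - b (knightTime b n (idx (knightTime b n) T))) ^ 2 -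
        ((T : ℝ≥0) : ℝ) + (((2 : ℝ) ^ n)⁻¹) ^ 2 * idx (knightTime b n) T‖ₑ ^ 2) ^ (1 / 2 : ℝ))
          atTop (𝓝 (0 ^ (1 / 2 : ℝ))) :=
        (ENNReal.continuous_rpow_const.tendsto 0).comp h8T
      have h11 : ∀ x : ℝ≥0∞, (x ^ 2) ^ (1 / 2 : ℝ) = x := by
        intro x
        rw [← ENNReal.rpow_natCast, ← ENNReal.rpow_mul]
        norm_num
      simp only [h11] at h10
      simpa using h10
    have hsmall : Tendsto (fun n : ℕ => (b T - b (knightTime b n (idx (knightTime b n) T))) ^ 2)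
        atTop (𝓝 0) := by
      have hle : ∀ n : ℕ, (b T - b (knightTime b n (idx (knightTime b n) T))) ^ 2 ≤
          (((2 : ℝ) ^ n)⁻¹) ^ 2 := by
        intro n
        have he := knightTime_isEmb h1 h3 n
        have hδ : (0 : ℝ) < ((2 : ℝ) ^ n)⁻¹ := by positivity
        obtain ⟨g1, g2⟩ := he.idx_spec h1 hδ (T : ℝ≥0)
        have := he.small _ _ g1 g2
        exact sq_le_sq.mpr (by rw [abs_of_pos hδ]; exact this.le)
      have hz : Tendsto (fun n : ℕ => (((2 : ℝ) ^ n)⁻¹) ^ 2) atTop (𝓝 0) := by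
        have : Tendsto (fun n : ℕ => ((2 : ℝ) ^ n)⁻¹) atTop (𝓝 0) := by
          have := tendsto_pow_atTop_nhds_zero_of_lt_one (r := (1 / 2 : ℝ)) (by norm_num)
            (by norm_num)
          refine this.congr fun n => ?_
          rw [one_div, inv_pow]
        simpa using this.pow 2
      exact squeeze_zero (fun n => sq_nonneg _) hle hz
    have h12 := (h9.sub hsmall).add_const ((T : ℝ≥0) : ℝ)
    simp only [sub_zero, zero_add] at h12
    refine h12.congr fun n => ?_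
    have h13 : (((2 : ℝ) ^ n)⁻¹) ^ 2 = ((4 : ℝ) ^ n)⁻¹ := by
      rw [← inv_pow, ← inv_pow, ← pow_mul, mul_comm n 2, pow_mul]
      norm_num
    rw [h13]
    field_simp
    ring

end Pool.Agent.Helper47.Knight
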