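import Mathlib
import Pool.Agent.Helper47.Knight.Conv

/-!
Deterministic convergence of the rescaled discrete span sets for a good path.
-/

open scoped NNReal Topology ENNReal
open Set Filter MeasureTheory ProbabilityTheory

namespace Pool.Agent.Helper47.Knight

lemma ivt_up {f : ℕ → ℤ} (hf : ∀ k, |f (k + 1) - f k| ≤ 1) (m : ℕ) (v : ℤ) :
    ∀ d : ℕ, f m ≤ v → v ≤ f (m + d) → ∃ j, m ≤ j ∧ j ≤ m + d ∧ f j = v
  | 0, h1, h2 => ⟨m, le_rfl, le_rfl, le_antisymm h1 h2⟩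
  | d + 1, h1, h2 => by
    by_cases h : v ≤ f (m + d)
    · obtain ⟨j, hj1, hj2, hj3⟩ := ivt_up hf m v d h1 h
      exact ⟨j, hj1, by omega, hj3⟩
    · push Not at h
      have h3 := hf (m + d)
      rw [abs_le] at h3
      have h4 : m + (d + 1) = m + d + 1 := by ring
      rw [h4] at h2
      refine ⟨m + d + 1, by omega, by omega, ?_⟩
      omega

lemma ivt_nat {f : ℕ → ℤ} (hf : ∀ k, |f (k + 1) - f k| ≤ 1) {m m' : ℕ} {v : ℤ}
    (h1 : f m ≤ v) (h2 : v ≤ f m') : ∃ j, min m m' ≤ j ∧ j ≤ max m m' ∧ f j = v := by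
  rcases le_total m m' with h | h
  · obtain ⟨d, rfl⟩ := Nat.exists_eq_add_of_le h
    obtain ⟨j, hj1, hj2, hj3⟩ := ivt_up hf m v d h1 h2
    exact ⟨j, by rw [min_eq_left h]; exact hj1, by rw [max_eq_right h]; exact hj2, hj3⟩
  · obtain ⟨d, rfl⟩ := Nat.exists_eq_add_of_le h
    have hf' : ∀ k, |(-f (k + 1)) - (-f k)| ≤ 1 := by
      intro k
      have := hf k
      rw [← abs_neg] at this
      convert this using 2
      ring
    obtain ⟨j, hj1, hj2, hj3⟩ := ivt_up (f := fun k => - f k) hf' m' (-v) d (by linarith)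
      (by linarith)
    refine ⟨j, by rw [min_eq_right h]; exact hj1, by rw [max_eq_left h]; exact hj2, by linarith⟩

lemma ivt_two {f : ℕ → ℤ} (hf : ∀ k, |f (k + 1) - f k| ≤ 1) {k₁ k₂ l₁ l₂ : ℕ}
    (h1 : f l₁ < f k₁) (h2 : f k₂ < f l₂) : ∃ k l, min k₁ k₂ ≤ k ∧ k ≤ max k₁ k₂ ∧
      min l₁ l₂ ≤ l ∧ l ≤ max l₁ l₂ ∧ f k = f l := by
  by_cases h : f l₂ ≤ f k₁
  · obtain ⟨j, hj1, hj2, hj3⟩ := ivt_nat hf h2.le h
    exact ⟨j, l₂, by omega, by omega, by omega, by omega, hj3⟩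
  · push Not at h
    obtain ⟨j, hj1, hj2, hj3⟩ := ivt_nat hf h1.le h.le
    exact ⟨k₁, j, by omega, by omega, by omega, by omega, hj3.symm⟩

lemma idx_mono {b : ℝ≥0 → ℝ} {δ : ℝ} {τ : ℕ → ℝ≥0} (he : IsEmb b δ τ) (hb : Continuous b)
    (hδ : 0 < δ) {S T : ℝ≥0} (h : S ≤ T) : idx τ S ≤ idx τ T := by
  have h1 := (he.idx_spec hb hδ S).1
  have h2 := (he.idx_spec hb hδ T).2
  have := he.strictMono.lt_iff_lt.mp (lt_of_le_of_lt (h1.trans h) h2)
  omega

lemma exists_rat_mem {V : Set ℝ≥0} (hV : IsOpen V) {x : ℝ≥0} (hx : x ∈ V) (hx1 : x ≤ 1) :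
    ∃ q : ℚ≥0, (q : ℝ≥0) ∈ V ∧ (q : ℝ≥0) < 1 := by
  have hcl : x ∈ closure (Iio (1 : ℝ≥0)) := by
    rw [closure_Iio' ⟨0, by simp⟩]
    exact hx1
  obtain ⟨y, hy1, hy2⟩ := mem_closure_iff.mp hcl V hV hx
  have hnb : V ∩ Iio 1 ∈ 𝓝[≥] y := nhdsWithin_le_nhds ((hV.inter isOpen_Iio).mem_nhds ⟨hy1, hy2⟩)
  obtain ⟨u, hu1, hu2⟩ := mem_nhdsGE_iff_exists_Ico_subset.mp hnb
  obtain ⟨q, hq1, hq2⟩ := exists_nnrat_btwn' (show y < u from hu1)
  have := hu2 ⟨hq1.le, hq2⟩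
  exact ⟨q, this.1, this.2⟩

namespace GoodPath

variable {b : ℝ≥0 → ℝ}

lemma conv' (hg : GoodPath b) (T : ℚ≥0) :
    Tendsto (fun n : ℕ => (idx (knightTime b n) T : ℝ) / 4 ^ n) atTop (𝓝 ((T : ℝ≥0) : ℝ)) := by
  rcases eq_or_lt_of_le (zero_le : 0 ≤ T) with h | h
  · have hz : ∀ n, idx (knightTime b n) (T : ℝ≥0) = 0 := by
      intro n
      have he := knightTime_isEmb hg.cont hg.unb n
      apply he.idx_eq hg.cont (by positivity)
      · rw [he.zero]; exact zero_le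
      · rw [← h]
        have := he.lt 0
        rw [he.zero] at this
        simpa using this
    simp only [hz]
    rw [← h]
    simp
  · exact hg.conv T h

lemma time_unif (hg : GoodPath b) {ε : ℝ} (hε : 0 < ε) :
    ∀ᶠ n : ℕ in atTop, ∀ k : ℕ, k ≤ 4 ^ n → |((knightTime b n k : ℝ≥0) : ℝ) - k / 4 ^ n| ≤ ε := by
  obtain ⟨R, hR⟩ := exists_nat_gt (max 4 (2 / ε))
  have hR4 : (4 : ℝ) < R := lt_of_le_of_lt (le_max_left _ _) hR
  have hR2 : 2 / ε < R := lt_of_le_of_lt (le_max_right _ _) hR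
  have hR0 : (0 : ℝ) < R := by linarith
  have hRne : (R : ℝ) ≠ 0 := hR0.ne'
  have hRε : 2 / (R : ℝ) < ε := by
    rw [div_lt_iff₀ hε] at hR2
    rw [div_lt_iff₀ hR0]
    linarith
  have hev : ∀ᶠ n : ℕ in atTop, ∀ i ∈ Finset.range (2 * R + 1),
      |(idx (knightTime b n) (((i : ℚ≥0) / R : ℚ≥0) : ℝ≥0) : ℝ) / 4 ^ n - (i : ℝ) / R| < 1 / R := by
    rw [Filter.eventually_all_finset]
    intro i _
    have h := hg.conv' ((i : ℚ≥0) / R)
    rw [Metric.tendsto_atTop] at h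
    obtain ⟨n₀, hn₀⟩ := h (1 / R) (by positivity)
    filter_upwards [eventually_ge_atTop n₀] with n hn
    have := hn₀ n hn
    rw [Real.dist_eq] at this
    have hc : ((((i : ℚ≥0) / R : ℚ≥0) : ℝ≥0) : ℝ) = (i : ℝ) / R := by push_cast; rfl
    rw [hc] at this
    exact this
  filter_upwards [hev] with n hn k hk
  have he := knightTime_isEmb hg.cont hg.unb n
  have hδ : (0 : ℝ) < ((2 : ℝ) ^ n)⁻¹ := by positivity
  have h4 : (0 : ℝ) < 4 ^ n := by positivity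
  have hk' : (k : ℝ) / 4 ^ n ≤ 1 := by
    rw [div_le_one h4]
    exact_mod_cast hk
  -- time bound
  have hτ2 : knightTime b n k < 2 := by
    by_contra hcon
    push Not at hcon
    have h2 := hn (2 * R) (by simp)
    have hc : (((2 * R : ℕ) : ℚ≥0) / R : ℚ≥0) = 2 := by
      have : (R : ℚ≥0) ≠ 0 := by exact_mod_cast hRne
      push_cast
      field_simp
    rw [hc] at h2
    have hle : idx (knightTime b n) ((2 : ℚ≥0) : ℝ≥0) ≤ k := by
      have h3 := (he.idx_spec hg.cont hδ ((2 : ℚ≥0) : ℝ≥0)).1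
      have h5 : ((2 : ℚ≥0) : ℝ≥0) ≤ knightTime b n k := by simpa using hcon
      exact he.strictMono.le_iff_le.mp (h3.trans h5)
    have hle' : (idx (knightTime b n) ((2 : ℚ≥0) : ℝ≥0) : ℝ) / 4 ^ n ≤ 1 := by
      refine le_trans ?_ hk'
      gcongr
    rw [abs_lt] at h2
    have h6 : ((2 * R : ℕ) : ℝ) / R = 2 := by
      push_cast
      field_simp
    rw [h6] at h2
    have h7 : 1 / (R : ℝ) < 1 / 4 := by
      rw [div_lt_div_iff₀ hR0 (by norm_num)]
      linarith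
    linarith [h2.1]
  set t : ℝ := ((knightTime b n k : ℝ≥0) : ℝ) with ht
  have ht2 : t < 2 := by
    have : ((knightTime b n k : ℝ≥0) : ℝ) < ((2 : ℝ≥0) : ℝ) := by exact_mod_cast hτ2
    simpa using this
  have ht0 : 0 ≤ t := NNReal.coe_nonneg _
  set i := ⌊t * R⌋₊ with hi
  have hi1 : (i : ℝ) ≤ t * R := Nat.floor_le (by positivity)
  have hi2 : t * R < i + 1 := Nat.lt_floor_add_one _
  have hi3 : i < 2 * R := by
    have : (i : ℝ) < 2 * R := by
      calc (i : ℝ) ≤ t * R := hi1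
        _ < 2 * R := by gcongr
    exact_mod_cast this
  have hia : (i : ℝ) / R ≤ t := by rw [div_le_iff₀ hR0]; exact hi1
  have hib : t < ((i + 1 : ℕ) : ℝ) / R := by rw [lt_div_iff₀ hR0]; push_cast; exact hi2
  have hA := hn i (by simp; omega)
  have hB := hn (i + 1) (by simp; omega)
  rw [abs_lt] at hA hB
  have hia' : (((i : ℚ≥0) / R : ℚ≥0) : ℝ≥0) ≤ knightTime b n k := by
    have : ((((i : ℚ≥0) / R : ℚ≥0) : ℝ≥0) : ℝ) ≤ ((knightTime b n k : ℝ≥0) : ℝ) := by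
      push_cast
      exact hia
    exact_mod_cast this
  have hib' : knightTime b n k ≤ ((((i + 1 : ℕ) : ℚ≥0) / R : ℚ≥0) : ℝ≥0) := by
    have : ((knightTime b n k : ℝ≥0) : ℝ) ≤ (((((i + 1 : ℕ) : ℚ≥0) / R : ℚ≥0) : ℝ≥0) : ℝ) := by
      push_cast
      push_cast at hib
      exact hib.le
    exact_mod_cast this
  have hkA : idx (knightTime b n) (((i : ℚ≥0) / R : ℚ≥0) : ℝ≥0) ≤ k :=
    he.strictMono.le_iff_le.mp (((he.idx_spec hg.cont hδ _).1).trans hia')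
  have hkB : k ≤ idx (knightTime b n) ((((i + 1 : ℕ) : ℚ≥0) / R : ℚ≥0) : ℝ≥0) := by
    have := he.strictMono.lt_iff_lt.mp (lt_of_le_of_lt hib' (he.idx_spec hg.cont hδ _).2)
    omega
  have hkA' : (idx (knightTime b n) (((i : ℚ≥0) / R : ℚ≥0) : ℝ≥0) : ℝ) / 4 ^ n ≤ k / 4 ^ n := by
    gcongr
  have hkB' : (k : ℝ) / 4 ^ n ≤
      (idx (knightTime b n) ((((i + 1 : ℕ) : ℚ≥0) / R : ℚ≥0) : ℝ≥0) : ℝ) / 4 ^ n := by
    gcongr
  have hdiff : ((i + 1 : ℕ) : ℝ) / R = (i : ℝ) / R + 1 / R := by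
    push_cast
    ring
  have h2R : 2 / (R : ℝ) = 1 / R + 1 / R := by ring
  rw [abs_le]
  constructor
  · linarith [hB.2, hA.1]
  · linarith [hB.2, hA.1]

lemma span_stable (hg : GoodPath b) {ε : ℝ} (hε : 0 < ε) : ∃ η : ℝ, 0 < η ∧ ∀ s t : ℝ≥0, s ≤ t →
    (t : ℝ) ≤ 1 + η → b s = b t → ∃ y ∈ spanSet b, |((t : ℝ) - s) - y| ≤ ε := by
  by_contra hcon
  push Not at hcon
  have hex : ∀ m : ℕ, ∃ p : ℝ≥0 × ℝ≥0, p.1 ≤ p.2 ∧ (p.2 : ℝ) ≤ 1 + 1 / ((m : ℝ) + 1) ∧
      b p.1 = b p.2 ∧ ∀ y ∈ spanSet b, ε < |((p.2 : ℝ) - p.1) - y| := by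
    intro m
    obtain ⟨s, t, h1, h2, h3, h4⟩ := hcon (1 / ((m : ℝ) + 1)) (by positivity)
    exact ⟨(s, t), h1, h2, h3, h4⟩
  choose p hp1 hp2 hp3 hp4 using hex
  have hcomp : IsCompact (Icc (0 : ℝ≥0 × ℝ≥0) (2, 2)) := isCompact_Icc
  have hmem : ∀ m, p m ∈ Icc (0 : ℝ≥0 × ℝ≥0) (2, 2) := by
    intro m
    have h2 : ((p m).2 : ℝ≥0) ≤ 2 := by
      have h3 : 1 / ((m : ℝ) + 1) ≤ 1 := by
        rw [div_le_one (by positivity)]
        have : (0 : ℝ) ≤ m := Nat.cast_nonneg _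
        linarith
      have : (((p m).2 : ℝ≥0) : ℝ) ≤ ((2 : ℝ≥0) : ℝ) := by
        have := hp2 m
        push_cast
        linarith
      exact_mod_cast this
    exact ⟨⟨zero_le, zero_le⟩, ⟨(hp1 m).trans h2, h2⟩⟩
  obtain ⟨⟨s, t⟩, -, φ, hφ, hlim⟩ := hcomp.tendsto_subseq hmem
  have hlim1 : Tendsto (fun m => (p (φ m)).1) atTop (𝓝 s) := (continuous_fst.tendsto _).comp hlim
  have hlim2 : Tendsto (fun m => (p (φ m)).2) atTop (𝓝 t) := (continuous_snd.tendsto _).comp hlim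
  have hst : s ≤ t := le_of_tendsto_of_tendsto' hlim1 hlim2 fun m => hp1 _
  have hbst : b s = b t := by
    have h1 := (hg.cont.tendsto s).comp hlim1
    have h2 := (hg.cont.tendsto t).comp hlim2
    refine tendsto_nhds_unique h1 (h2.congr fun m => ?_)
    exact (hp3 _).symm
  have hlim2' : Tendsto (fun m => (((p (φ m)).2 : ℝ≥0) : ℝ)) atTop (𝓝 (t : ℝ)) :=
    (NNReal.continuous_coe.tendsto _).comp hlim2
  have hlim1' : Tendsto (fun m => (((p (φ m)).1 : ℝ≥0) : ℝ)) atTop (𝓝 (s : ℝ)) :=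
    (NNReal.continuous_coe.tendsto _).comp hlim1
  have ht1 : (t : ℝ) ≤ 1 := by
    have h1 : Tendsto (fun m : ℕ => 1 + 1 / (((φ m : ℕ) : ℝ) + 1)) atTop (𝓝 (1 + 0)) :=
      ((tendsto_one_div_add_atTop_nhds_zero_nat (𝕜 := ℝ)).comp hφ.tendsto_atTop).const_add 1
    rw [add_zero] at h1
    exact le_of_tendsto_of_tendsto' hlim2' h1 fun m => hp2 _
  have hy : (t : ℝ) - s ∈ spanSet b := ⟨s, t, hst, by exact_mod_cast ht1, hbst, rfl⟩
  have hlim3 : Tendsto (fun m => |(((p (φ m)).2 : ℝ) - (p (φ m)).1) - ((t : ℝ) - s)|) atTop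
      (𝓝 0) := by
    have := ((hlim2'.sub hlim1').sub_const ((t : ℝ) - s)).abs
    simpa using this
  have hfin : ε ≤ 0 := ge_of_tendsto' hlim3 fun m => (hp4 (φ m) _ hy).le
  linarith

lemma upper (hg : GoodPath b) {ε : ℝ} (hε : 0 < ε) :
    ∀ᶠ n : ℕ in atTop, ∀ x ∈ scaledSpan b n, ∃ y ∈ spanSet b, dist x y ≤ ε := by
  obtain ⟨η, hη, hst⟩ := hg.span_stable (half_pos hε)
  filter_upwards [hg.time_unif (lt_min hη (show 0 < ε / 4 by linarith))] with n hn
  rintro x ⟨j, ⟨k, l, hk, hl, hlk, hw, rfl⟩, rfl⟩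
  have he := knightTime_isEmb hg.cont hg.unb n
  have h24 : 2 ^ (2 * n) = 4 ^ n := by rw [pow_mul]; norm_num
  have h24' : (2 : ℝ) ^ (2 * n) = 4 ^ n := by rw [pow_mul]; norm_num
  rw [h24] at hk hl
  have hk1 := hn k hk
  have hl1 := hn l hl
  have hb : b (knightTime b n l) = b (knightTime b n k) := by
    unfold knightWalk at hw
    have h2 : (2 : ℝ) ^ n ≠ 0 := by positivity
    exact (mul_left_cancel₀ h2 hw).symm
  have hkn : (k : ℝ) / 4 ^ n ≤ 1 := by
    rw [div_le_one (by positivity)]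
    exact_mod_cast hk
  have htk : ((knightTime b n k : ℝ≥0) : ℝ) ≤ 1 + η := by
    rw [abs_le] at hk1
    have := hk1.2
    have h3 := min_le_left η (ε / 4)
    linarith
  obtain ⟨y, hy, hy'⟩ := hst _ _ (he.strictMono.monotone hlk) htk hb
  refine ⟨y, hy, ?_⟩
  rw [Real.dist_eq]
  have hmin := min_le_right η (ε / 4)
  have hcast : (((k - l : ℕ)) : ℝ) / 2 ^ (2 * n) = (k : ℝ) / 4 ^ n - (l : ℝ) / 4 ^ n := by
    rw [Nat.cast_sub hlk, h24']
    ring
  simp only [hcast]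
  rw [abs_le] at *
  constructor
  · linarith [hk1.1, hk1.2, hl1.1, hl1.2, hy'.1, hy'.2]
  · linarith [hk1.1, hk1.2, hl1.1, hl1.2, hy'.1, hy'.2]

/-- rational bracket of a real time -/
lemma exists_bracket (s : ℝ≥0) (hs : s ≤ 1) {r : ℝ≥0} (hr : 0 < r) : ∃ a c : ℚ≥0,
    (a : ℝ≥0) ≤ s ∧ s ≤ (c : ℝ≥0) ∧ s < a + r ∧ (c : ℝ≥0) < s + r ∧ (c : ℝ≥0) ≤ 1 := by
  obtain ⟨c, hc1, hc2⟩ := exists_nnrat_btwn' (lt_add_of_pos_right s hr)
  have hcmin : ((min c 1 : ℚ≥0) : ℝ≥0) = min (c : ℝ≥0) 1 := by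
    rcases le_total c 1 with h | h
    · rw [min_eq_left h, min_eq_left (by exact_mod_cast h)]
    · rw [min_eq_right h, min_eq_right (by exact_mod_cast h)]
      simp
  have hc3 : s ≤ ((min c 1 : ℚ≥0) : ℝ≥0) := by
    rw [hcmin]
    exact le_min hc1.le hs
  have hc4 : ((min c 1 : ℚ≥0) : ℝ≥0) < s + r := by
    rw [hcmin]
    exact lt_of_le_of_lt (min_le_left _ _) hc2
  have hc5 : ((min c 1 : ℚ≥0) : ℝ≥0) ≤ 1 := by
    rw [hcmin]
    exact min_le_right _ _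
  rcases eq_or_lt_of_le (zero_le : 0 ≤ s) with h | h
  · refine ⟨0, min c 1, by simp, hc3, ?_, hc4, hc5⟩
    rw [← h]
    simpa using hr
  · have hlt : s - r < s := tsub_lt_self h hr
    obtain ⟨a, ha1, ha2⟩ := exists_nnrat_btwn' hlt
    refine ⟨a, min c 1, ha2.le, hc3, ?_, hc4, hc5⟩
    exact lt_of_not_ge fun h => absurd (le_tsub_of_add_le_right h) (not_le.mpr ha1)

lemma bracket_L {a c : ℚ≥0} (h : (a : ℝ≥0) ≤ c) :
    (a : ℝ≥0) + ((c - a : ℚ≥0) : ℝ≥0) = c := by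
  have h' : a ≤ c := by exact_mod_cast h
  have : a + (c - a) = c := add_tsub_cancel_of_le h'
  exact_mod_cast congrArg (fun q : ℚ≥0 => (q : ℝ≥0)) this

/-- At a coincidence pair the increments take both strict signs nearby, at rational times. -/
lemma exists_signs (hg : GoodPath b) {s t r : ℝ≥0} (hr : 0 < r) (hst : s + 4 * r ≤ t) (ht : t ≤ 1)
    (hb : b s = b t) :
    (∃ s₁ t₁ : ℚ≥0, (t₁ : ℝ≥0) < 1 ∧ dist (s₁ : ℝ≥0) s < 2 * r ∧ dist (t₁ : ℝ≥0) t < 2 * r ∧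
      b s₁ < b t₁) ∧
    (∃ s₂ t₂ : ℚ≥0, (t₂ : ℝ≥0) < 1 ∧ dist (s₂ : ℝ≥0) s < 2 * r ∧ dist (t₂ : ℝ≥0) t < 2 * r ∧
      b t₂ < b s₂) := by
  have hs1 : s ≤ 1 := le_trans (le_trans le_self_add hst) ht
  obtain ⟨a, c, ha, hc, ha', hc', hc1⟩ := exists_bracket s hs1 hr
  obtain ⟨d, e, hd, he, hd', he', he1⟩ := exists_bracket t ht hr
  have hac : (a : ℝ≥0) ≤ c := ha.trans hc
  have hde : (d : ℝ≥0) ≤ e := hd.trans he
  have hcd : (c : ℝ≥0) < d := by
    have h1 : (c : ℝ≥0) + r < s + 2 * r := by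
      calc (c : ℝ≥0) + r < s + r + r := by gcongr
        _ = s + 2 * r := by ring
    have h2 : s + 4 * r < d + r := lt_of_le_of_lt hst hd'
    have h3 : s + 2 * r ≤ s + 4 * r := by gcongr; norm_num
    exact lt_of_add_lt_add_right (h1.trans_le (h3.trans h2.le))
  have hlt : a + (c - a) < d := by
    have h1 : a + (c - a) = c := add_tsub_cancel_of_le (by exact_mod_cast hac)
    rw [h1]
    exact_mod_cast hcd
  have hcont := hg.cont
  -- general perturbation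
  have hpert : ∀ (f : ℝ≥0 → ℝ) (_ : Continuous f), (∃ x y : ℝ≥0, (a : ℝ≥0) ≤ x ∧ x ≤ c ∧
      (d : ℝ≥0) ≤ y ∧ y ≤ e ∧ f x < f y) → ∃ s₁ t₁ : ℚ≥0, (t₁ : ℝ≥0) < 1 ∧
      dist (s₁ : ℝ≥0) s < 2 * r ∧ dist (t₁ : ℝ≥0) t < 2 * r ∧ f s₁ < f t₁ := by
    rintro f hf ⟨x, y, hx1, hx2, hy1, hy2, hxy⟩
    have hdx : dist x s < 2 * r := by
      rw [NNReal.dist_eq, abs_lt]
      have e1 : (a : ℝ≥0) ≤ x := hx1
      have h1 : (s : ℝ) < x + r := by
        have : s < x + r := lt_of_lt_of_le ha' (by gcongr)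
        exact_mod_cast this
      have h2 : (x : ℝ) < s + r := by
        have : x < s + r := lt_of_le_of_lt hx2 hc'
        exact_mod_cast this
      have h3 : (0 : ℝ) < r := by exact_mod_cast hr
      constructor <;> linarith
    have hdy : dist y t < 2 * r := by
      rw [NNReal.dist_eq, abs_lt]
      have h1 : (t : ℝ) < y + r := by
        have : t < y + r := lt_of_lt_of_le hd' (by gcongr)
        exact_mod_cast this
      have h2 : (y : ℝ) < t + r := by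
        have : y < t + r := lt_of_le_of_lt hy2 he'
        exact_mod_cast this
      have h3 : (0 : ℝ) < r := by exact_mod_cast hr
      constructor <;> linarith
    have hU : IsOpen ({u : ℝ≥0 | f u < f y} ∩ Metric.ball s (2 * r)) :=
      (isOpen_lt hf continuous_const).inter Metric.isOpen_ball
    obtain ⟨s₁, hs₁, -⟩ := exists_rat_mem hU (x := x) ⟨hxy, hdx⟩ (hx2.trans hc1)
    have hV : IsOpen ({u : ℝ≥0 | f s₁ < f u} ∩ Metric.ball t (2 * r)) :=
      (isOpen_lt continuous_const hf).inter Metric.isOpen_ball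
    obtain ⟨t₁, ht₁, ht₁'⟩ := exists_rat_mem hV (x := y) ⟨hs₁.1, hdy⟩ (hy2.trans he1)
    exact ⟨s₁, t₁, ht₁', hs₁.2, ht₁.2, ht₁.1⟩
  constructor
  · apply hpert b hcont
    by_contra hcon
    push Not at hcon
    refine hg.S' a (c - a) d (e - d) hlt ?_
    have h1 : maxOn (fun t => - b t) a ((c - a : ℚ≥0) : ℝ≥0) = - b s := by
      apply maxOn_eq_of_max (w := fun t => - b t) hcont.neg ha (by rw [bracket_L hac]; exact hc)
      intro u hu1 hu2
      rw [bracket_L hac] at hu2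
      have := hcon u t hu1 hu2 hd he
      linarith
    have h2 : maxOn b d ((e - d : ℚ≥0) : ℝ≥0) = b t := by
      apply maxOn_eq_of_max hcont hd (by rw [bracket_L hde]; exact he)
      intro u hu1 hu2
      rw [bracket_L hde] at hu2
      have := hcon s u ha hc hu1 hu2
      linarith
    rw [h1, h2]
    linarith
  · have := hpert (fun t => - b t) hcont.neg (by
      by_contra hcon
      push Not at hcon
      refine hg.S a (c - a) d (e - d) hlt ?_
      have h1 : maxOn b a ((c - a : ℚ≥0) : ℝ≥0) = b s := by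
        apply maxOn_eq_of_max hcont ha (by rw [bracket_L hac]; exact hc)
        intro u hu1 hu2
        rw [bracket_L hac] at hu2
        have := hcon u t hu1 hu2 hd he
        linarith
      have h2 : maxOn (fun t => - b t) d ((e - d : ℚ≥0) : ℝ≥0) = - b t := by
        apply maxOn_eq_of_max (w := fun t => - b t) hcont.neg hd
          (by rw [bracket_L hde]; exact he)
        intro u hu1 hu2
        rw [bracket_L hde] at hu2
        have := hcon s u ha hc hu1 hu2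
        linarith
      rw [h1, h2]
      linarith)
    obtain ⟨s₂, t₂, h1, h2, h3, h4⟩ := this
    exact ⟨s₂, t₂, h1, h2, h3, by simpa using h4⟩

lemma zero_mem_scaledSpan (b : ℝ≥0 → ℝ) (n : ℕ) : (0 : ℝ) ∈ scaledSpan b n :=
  ⟨0, ⟨0, 0, by positivity, by positivity, le_rfl, rfl, rfl⟩, by simp⟩

/-- pointwise approximation of an element of the span set -/
lemma lower_point (hg : GoodPath b) {s t : ℝ≥0} (hst : s ≤ t) (ht : t ≤ 1) (hb : b s = b t)
    {ε : ℝ} (hε : 0 < ε) :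
    ∀ᶠ n : ℕ in atTop, ∃ x ∈ scaledSpan b n, |((t : ℝ) - s) - x| ≤ ε := by
  rcases hst.eq_or_lt with h | h
  · subst h
    refine Eventually.of_forall fun n => ⟨0, zero_mem_scaledSpan b n, ?_⟩
    simp [hε.le]
  · -- radius
    have hd : (0 : ℝ) < t - s := by
      have : (s : ℝ) < t := by exact_mod_cast h
      linarith
    obtain ⟨r, hr0, hr1, hr2⟩ : ∃ r : ℝ≥0, 0 < r ∧ 4 * (r : ℝ) ≤ t - s ∧ 8 * (r : ℝ) ≤ ε := by
      have hm : 0 < min (((t : ℝ) - s) / 4) (ε / 8) := by positivity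
      refine ⟨(min (((t : ℝ) - s) / 4) (ε / 8)).toNNReal, Real.toNNReal_pos.mpr hm, ?_, ?_⟩
      · have := min_le_left (((t : ℝ) - s) / 4) (ε / 8)
        rw [Real.coe_toNNReal _ hm.le]
        linarith
      · have := min_le_right (((t : ℝ) - s) / 4) (ε / 8)
        rw [Real.coe_toNNReal _ hm.le]
        linarith
    have hr0' : (0 : ℝ) < r := by exact_mod_cast hr0
    have hst4 : s + 4 * r ≤ t := by
      have : ((s + 4 * r : ℝ≥0) : ℝ) ≤ t := by push_cast; linarith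
      exact_mod_cast this
    obtain ⟨⟨s₁, t₁, ht₁, hs₁d, ht₁d, hlt₁⟩, ⟨s₂, t₂, ht₂, hs₂d, ht₂d, hlt₂⟩⟩ :=
      hg.exists_signs hr0 hst4 ht hb
    rw [NNReal.dist_eq, abs_lt] at hs₁d ht₁d hs₂d ht₂d
    -- closeness of levels
    have hlev : ∀ u : ℚ≥0, ∀ n : ℕ,
        |b u - b (knightTime b n (idx (knightTime b n) u))| < ((2 : ℝ) ^ n)⁻¹ := by
      intro u n
      have he := knightTime_isEmb hg.cont hg.unb n
      have hδ : (0 : ℝ) < ((2 : ℝ) ^ n)⁻¹ := by positivity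
      obtain ⟨g1, g2⟩ := he.idx_spec hg.cont hδ (u : ℝ≥0)
      exact he.small _ _ g1 g2
    have hz : Tendsto (fun n : ℕ => ((2 : ℝ) ^ n)⁻¹) atTop (𝓝 0) := by
      have := tendsto_pow_atTop_nhds_zero_of_lt_one (r := (1 / 2 : ℝ)) (by norm_num)
        (by norm_num)
      refine this.congr fun n => ?_
      rw [one_div, inv_pow]
    have hlevlim : ∀ u : ℚ≥0, Tendsto (fun n : ℕ =>
        b (knightTime b n (idx (knightTime b n) u))) atTop (𝓝 (b u)) := by
      intro u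
      rw [tendsto_iff_dist_tendsto_zero]
      refine squeeze_zero (fun n => dist_nonneg) (fun n => ?_) hz
      rw [Real.dist_eq, abs_sub_comm]
      exact (hlev u n).le
    have hev1 := (hlevlim s₁).eventually_lt (hlevlim t₁) hlt₁
    have hev2 := (hlevlim t₂).eventually_lt (hlevlim s₂) hlt₂
    have hmet : ∀ u : ℚ≥0, ∀ᶠ n : ℕ in atTop,
        |(idx (knightTime b n) u : ℝ) / 4 ^ n - ((u : ℝ≥0) : ℝ)| < r := by
      intro u
      have h1 := hg.conv' u
      rw [Metric.tendsto_atTop] at h1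
      obtain ⟨n₀, hn₀⟩ := h1 r hr0'
      filter_upwards [eventually_ge_atTop n₀] with n hn
      have := hn₀ n hn
      rwa [Real.dist_eq] at this
    have hlt1 : ∀ u : ℚ≥0, (u : ℝ≥0) < 1 → ∀ᶠ n : ℕ in atTop,
        (idx (knightTime b n) u : ℝ) / 4 ^ n < 1 := by
      intro u hu
      exact (hg.conv' u).eventually (gt_mem_nhds (by exact_mod_cast hu))
    filter_upwards [hev1, hev2, hmet s₁, hmet s₂, hmet t₁, hmet t₂, hlt1 t₁ ht₁, hlt1 t₂ ht₂]
      with n h1 h2 h3 h4 h5 h6 h7 h8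
    have he := knightTime_isEmb hg.cont hg.unb n
    have hδ : (0 : ℝ) < ((2 : ℝ) ^ n)⁻¹ := by positivity
    choose z hz using he.level hδ.le hg.zero
    have hzstep : ∀ k, |z (k + 1) - z k| ≤ 1 := by
      intro k
      have h9 := he.eq k
      rw [hz (k + 1), hz k, ← sub_mul, abs_mul, abs_of_pos hδ] at h9
      have h10 : |((z (k + 1) : ℝ) - z k)| = 1 := by
        have := mul_right_cancel₀ hδ.ne' (h9.trans (one_mul _).symm)
        exact this
      have h11 : |z (k + 1) - z k| = 1 := by exact_mod_cast h10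
      exact h11.le
    have hzlt : ∀ k l, b (knightTime b n k) < b (knightTime b n l) → z k < z l := by
      intro k l hkl
      rw [hz k, hz l] at hkl
      have := lt_of_mul_lt_mul_right hkl hδ.le
      exact_mod_cast this
    obtain ⟨k, l, hk1, hk2, hl1, hl2, hkl⟩ := ivt_two hzstep (hzlt _ _ h1) (hzlt _ _ h2)
    have h4n : (0 : ℝ) < 4 ^ n := by positivity
    have h4n' : 0 < 4 ^ n := by positivity
    -- k ≤ 4^n
    have hT1 : idx (knightTime b n) (t₁ : ℝ≥0) < 4 ^ n := by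
      rw [div_lt_one h4n] at h7
      exact_mod_cast h7
    have hT2 : idx (knightTime b n) (t₂ : ℝ≥0) < 4 ^ n := by
      rw [div_lt_one h4n] at h8
      exact_mod_cast h8
    have hk4 : k ≤ 4 ^ n := by omega
    -- ordering
    have hrat : ∀ u v : ℚ≥0, ((u : ℝ≥0) : ℝ) - s < 2 * r → -(2 * r) < (((v : ℝ≥0) : ℝ) - t) →
        idx (knightTime b n) (u : ℝ≥0) ≤ idx (knightTime b n) (v : ℝ≥0) := by
      intro u v hu hv
      apply idx_mono he hg.cont hδ
      have : ((u : ℝ≥0) : ℝ) ≤ ((v : ℝ≥0) : ℝ) := by linarith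
      exact_mod_cast this
    have o11 := hrat s₁ t₁ hs₁d.2 ht₁d.1
    have o12 := hrat s₁ t₂ hs₁d.2 ht₂d.1
    have o21 := hrat s₂ t₁ hs₂d.2 ht₁d.1
    have o22 := hrat s₂ t₂ hs₂d.2 ht₂d.1
    have hlk : l ≤ k := by omega
    refine ⟨((k - l : ℕ) : ℝ) / 2 ^ (2 * n), ⟨k - l, ⟨k, l, ?_, ?_, hlk, ?_, rfl⟩, rfl⟩, ?_⟩
    · rw [pow_mul]; exact hk4
    · rw [pow_mul]; exact hlk.trans hk4
    · unfold knightWalk
      rw [hz k, hz l, hkl]
    · have h24' : (2 : ℝ) ^ (2 * n) = 4 ^ n := by rw [pow_mul]; norm_num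
      have hcast : (((k - l : ℕ)) : ℝ) / 2 ^ (2 * n) = (k : ℝ) / 4 ^ n - (l : ℝ) / 4 ^ n := by
        rw [Nat.cast_sub hlk, h24']
        ring
      rw [hcast]
      rw [abs_lt] at h3 h4 h5 h6
      -- bounds for k
      have hkbound : |(k : ℝ) / 4 ^ n - t| ≤ 3 * r := by
        have hA : ∀ m : ℕ, idx (knightTime b n) (t₁ : ℝ≥0) ≤ m → (t : ℝ) - 3 * r ≤ m / 4 ^ n := by
          intro m hm
          have : (idx (knightTime b n) (t₁ : ℝ≥0) : ℝ) / 4 ^ n ≤ m / 4 ^ n := by gcongr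
          linarith [ht₁d.1]
        have hB : ∀ m : ℕ, idx (knightTime b n) (t₂ : ℝ≥0) ≤ m → (t : ℝ) - 3 * r ≤ m / 4 ^ n := by
          intro m hm
          have : (idx (knightTime b n) (t₂ : ℝ≥0) : ℝ) / 4 ^ n ≤ m / 4 ^ n := by gcongr
          linarith [ht₂d.1]
        have hC : ∀ m : ℕ, m ≤ idx (knightTime b n) (t₁ : ℝ≥0) → (m : ℝ) / 4 ^ n ≤ t + 3 * r := by
          intro m hm
          have : (m : ℝ) / 4 ^ n ≤ (idx (knightTime b n) (t₁ : ℝ≥0) : ℝ) / 4 ^ n := by gcongr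
          linarith [ht₁d.2]
        have hD : ∀ m : ℕ, m ≤ idx (knightTime b n) (t₂ : ℝ≥0) → (m : ℝ) / 4 ^ n ≤ t + 3 * r := by
          intro m hm
          have : (m : ℝ) / 4 ^ n ≤ (idx (knightTime b n) (t₂ : ℝ≥0) : ℝ) / 4 ^ n := by gcongr
          linarith [ht₂d.2]
        rw [abs_le]
        constructor
        · rcases min_le_iff.mp hk1 with h | h
          · linarith [hA k h]
          · linarith [hB k h]
        · rcases le_max_iff.mp hk2 with h | h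
          · linarith [hC k h]
          · linarith [hD k h]
      have hlbound : |(l : ℝ) / 4 ^ n - s| ≤ 3 * r := by
        have hA : ∀ m : ℕ, idx (knightTime b n) (s₁ : ℝ≥0) ≤ m → (s : ℝ) - 3 * r ≤ m / 4 ^ n := by
          intro m hm
          have : (idx (knightTime b n) (s₁ : ℝ≥0) : ℝ) / 4 ^ n ≤ m / 4 ^ n := by gcongr
          linarith [hs₁d.1]
        have hB : ∀ m : ℕ, idx (knightTime b n) (s₂ : ℝ≥0) ≤ m → (s : ℝ) - 3 * r ≤ m / 4 ^ n := by
          intro m hm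
          have : (idx (knightTime b n) (s₂ : ℝ≥0) : ℝ) / 4 ^ n ≤ m / 4 ^ n := by gcongr
          linarith [hs₂d.1]
        have hC : ∀ m : ℕ, m ≤ idx (knightTime b n) (s₁ : ℝ≥0) → (m : ℝ) / 4 ^ n ≤ s + 3 * r := by
          intro m hm
          have : (m : ℝ) / 4 ^ n ≤ (idx (knightTime b n) (s₁ : ℝ≥0) : ℝ) / 4 ^ n := by gcongr
          linarith [hs₁d.2]
        have hD : ∀ m : ℕ, m ≤ idx (knightTime b n) (s₂ : ℝ≥0) → (m : ℝ) / 4 ^ n ≤ s + 3 * r := by
          intro m hm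
          have : (m : ℝ) / 4 ^ n ≤ (idx (knightTime b n) (s₂ : ℝ≥0) : ℝ) / 4 ^ n := by gcongr
          linarith [hs₂d.2]
        rw [abs_le]
        constructor
        · rcases min_le_iff.mp hl1 with h | h
          · linarith [hA l h]
          · linarith [hB l h]
        · rcases le_max_iff.mp hl2 with h | h
          · linarith [hC l h]
          · linarith [hD l h]
      rw [abs_le] at hkbound hlbound ⊢
      constructor
      · linarith [hkbound.1, hkbound.2, hlbound.1, hlbound.2]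
      · linarith [hkbound.1, hkbound.2, hlbound.1, hlbound.2]

lemma lower (hg : GoodPath b) {ε : ℝ} (hε : 0 < ε) :
    ∀ᶠ n : ℕ in atTop, ∀ y ∈ spanSet b, ∃ x ∈ scaledSpan b n, dist y x ≤ ε := by
  set K : Set (ℝ≥0 × ℝ≥0) := {p | p.1 ≤ p.2 ∧ p.2 ≤ 1 ∧ b p.1 = b p.2} with hK
  have hcont := hg.cont
  have hclosed : IsClosed K := by
    apply (isClosed_le continuous_fst continuous_snd).inter
    apply (isClosed_le continuous_snd continuous_const).inter
    exact isClosed_eq (by fun_prop) (by fun_prop)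
  have hcomp : IsCompact K := by
    refine (isCompact_Icc (a := (0 : ℝ≥0 × ℝ≥0)) (b := (1, 1))).of_isClosed_subset hclosed ?_
    rintro ⟨s, t⟩ ⟨h1, h2, h3⟩
    exact ⟨⟨zero_le, zero_le⟩, ⟨h1.trans h2, h2⟩⟩
  have hmain : ∀ᶠ n : ℕ in atTop, ∀ p ∈ K, ∃ x ∈ scaledSpan b n,
      |((p.2 : ℝ) - p.1) - x| ≤ ε := by
    refine hcomp.induction_on (p := fun S => ∀ᶠ n : ℕ in atTop, ∀ p ∈ S, ∃ x ∈ scaledSpan b n,
      |((p.2 : ℝ) - p.1) - x| ≤ ε) ?_ ?_ ?_ ?_
    · exact Eventually.of_forall fun n p hp => absurd hp (notMem_empty _)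
    · intro s t hst ht
      filter_upwards [ht] with n hn p hp using hn p (hst hp)
    · intro s t hs ht
      filter_upwards [hs, ht] with n h1 h2 p hp
      rcases hp with hp | hp
      · exact h1 p hp
      · exact h2 p hp
    · rintro ⟨s, t⟩ ⟨h1, h2, h3⟩
      refine ⟨{p | |((p.2 : ℝ) - p.1) - ((t : ℝ) - s)| < ε / 2}, ?_, ?_⟩
      · apply nhdsWithin_le_nhds
        apply IsOpen.mem_nhds
        · exact isOpen_lt (by fun_prop) continuous_const
        · simp [hε]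
      · filter_upwards [hg.lower_point h1 h2 h3 (half_pos hε)] with n hn p hp
        obtain ⟨x, hx, hx'⟩ := hn
        refine ⟨x, hx, ?_⟩
        have hp' : |((p.2 : ℝ) - p.1) - ((t : ℝ) - s)| < ε / 2 := hp
        rw [abs_lt] at hp'
        rw [abs_le] at hx' ⊢
        constructor
        · linarith [hp'.1, hp'.2, hx'.1, hx'.2]
        · linarith [hp'.1, hp'.2, hx'.1, hx'.2]
  filter_upwards [hmain] with n hn
  rintro y ⟨s, t, h1, h2, h3, rfl⟩
  obtain ⟨x, hx, hx'⟩ := hn (s, t) ⟨h1, h2, h3⟩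
  exact ⟨x, hx, by rw [Real.dist_eq]; exact hx'⟩

/-- Deterministic convergence for a good path. -/
theorem tendsto_hausdorff (hg : GoodPath b) :
    Tendsto (fun n : ℕ => Metric.hausdorffDist (scaledSpan b n) (spanSet b)) atTop (𝓝 0) := by
  rw [Metric.tendsto_atTop]
  intro ε hε
  obtain ⟨n₀, hn₀⟩ := eventually_atTop.mp
    ((hg.upper (half_pos hε)).and (hg.lower (half_pos hε)))
  refine ⟨n₀, fun n hn => ?_⟩
  obtain ⟨h1, h2⟩ := hn₀ n hn
  have h3 := Metric.hausdorffDist_le_of_mem_dist (half_pos hε).le h1 h2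
  rw [Real.dist_eq, sub_zero, abs_of_nonneg Metric.hausdorffDist_nonneg]
  linarith

end GoodPath

end Pool.Agent.Helper47.Knight
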