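import Mathlib
import Pool.Agent.Helper47.Knight.Det

/-!
Measurability of the Hausdorff distance and the final convergence in probability.
-/

open scoped NNReal Topology ENNReal
open Set Filter MeasureTheory ProbabilityTheory

namespace Pool.Agent.Helper47.Knight

variable {Ω : Type*} [MeasurableSpace Ω] {P : Measure Ω} {B : ℝ≥0 → Ω → ℝ}

lemma aemeasurable_mem_of_nullMeasurable {A : Set Ω} (hA : NullMeasurableSet A P) :
    AEMeasurable (fun ω => ω ∈ A) P := by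
  obtain ⟨t, -, ht, hte⟩ := hA.exists_measurable_superset_ae_eq
  refine ⟨fun ω => ω ∈ t, ht.mem, ?_⟩
  exact hte.symm

/-- the event that the discretised walk eventually sits at level `z 2^(-n)` after `k` steps -/
def evSt (B : ℝ≥0 → Ω → ℝ) (n : ℕ) (T : ℚ≥0) (z : ℤ) (k : ℕ) : Set Ω :=
  {ω | ∀ᶠ M : ℕ in atTop, st ((2 : ℝ) ^ n)⁻¹ (samp B T M ω) M = (z * ((2 : ℝ) ^ n)⁻¹, k)}

lemma nullMeasurable_evSt (hB : IsPreBrownianReal B P) (n : ℕ) (T : ℚ≥0) (z : ℤ) (k : ℕ) :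
    NullMeasurableSet (evSt B n T z k) P := by
  have hset : evSt B n T z k = ⋃ N : ℕ, ⋂ M : ℕ, {ω | N ≤ M →
      st ((2 : ℝ) ^ n)⁻¹ (samp B T M ω) M = (z * ((2 : ℝ) ^ n)⁻¹, k)} := by
    ext ω
    simp only [evSt, mem_ofPred_eq, eventually_atTop, mem_iUnion, mem_iInter]
  rw [hset]
  refine NullMeasurableSet.iUnion fun N => NullMeasurableSet.iInter fun M => ?_
  by_cases hNM : N ≤ M
  · have h1 : AEMeasurable (fun ω => st ((2 : ℝ) ^ n)⁻¹ (samp B T M ω) M) P :=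
      (measurable_st _ M).comp_aemeasurable (aemeasurable_samp hB T M)
    have h2 := h1.nullMeasurable (measurableSet_singleton ((z * ((2 : ℝ) ^ n)⁻¹, k) : ℝ × ℕ))
    convert h2 using 1
    ext ω
    simp [hNM]
  · convert nullMeasurableSet_univ (μ := P) using 1
    ext ω
    simp [hNM]

omit [MeasurableSpace Ω] in
lemma GoodPath.evSt_iff {ω : Ω} (hg : GoodPath (fun t => B t ω)) {n : ℕ} {T : ℚ≥0} (hT : 0 < T)
    {z : ℤ} {k : ℕ} : ω ∈ evSt B n T z k ↔
      idx (knightTime (fun t => B t ω) n) T = k ∧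
      B (knightTime (fun t => B t ω) n k) ω = z * ((2 : ℝ) ^ n)⁻¹ := by
  have h := (Ssum_tendsto hg.cont hg.zero hg.unb hg.R hg.R' hT n).1
  constructor
  · intro hω
    have hω' : ∀ᶠ M : ℕ in atTop, st ((2 : ℝ) ^ n)⁻¹ (samp B T M ω) M =
      (z * ((2 : ℝ) ^ n)⁻¹, k) := hω
    obtain ⟨M, hM1, hM2⟩ := (h.and hω').exists
    have h3 : (B (knightTime (fun t => B t ω) n (idx (knightTime (fun t => B t ω) n) T)) ω,
        idx (knightTime (fun t => B t ω) n) T) = ((z : ℝ) * ((2 : ℝ) ^ n)⁻¹, k) :=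
      hM1.symm.trans hM2
    rw [Prod.ext_iff] at h3
    obtain ⟨h4, h5⟩ := h3
    simp only at h4 h5
    refine ⟨h5, ?_⟩
    rw [← h5]
    exact h4
  · rintro ⟨h1, h2⟩
    have : ∀ᶠ M : ℕ in atTop, st ((2 : ℝ) ^ n)⁻¹ (samp B T M ω) M =
      (z * ((2 : ℝ) ^ n)⁻¹, k) := by
      filter_upwards [h] with M hM
      rw [← h2]
      have : st ((2 : ℝ) ^ n)⁻¹ (samp B T M ω) M =
        (B (knightTime (fun t => B t ω) n (idx (knightTime (fun t => B t ω) n) T)) ω,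
          idx (knightTime (fun t => B t ω) n) T) := hM
      rw [this, h1]
    exact this

lemma GoodPath.exists_rat_idx {b : ℝ≥0 → ℝ} (hg : GoodPath b) (n k : ℕ) :
    ∃ T : ℚ≥0, 0 < T ∧ idx (knightTime b n) T = k := by
  have he := knightTime_isEmb hg.cont hg.unb n
  obtain ⟨T, hT1, hT2⟩ := exists_nnrat_btwn' (he.lt k)
  refine ⟨T, ?_, he.idx_eq hg.cont (by positivity) hT1.le hT2⟩
  have : (0 : ℝ≥0) < T := lt_of_le_of_lt zero_le hT1
  exact_mod_cast this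

omit [MeasurableSpace Ω] in
lemma GoodPath.mem_walkSpan_iff {ω : Ω} (hg : GoodPath (fun t => B t ω)) (n j : ℕ) :
    j ∈ walkSpan (fun t => B t ω) n ↔ ∃ (k l : ℕ) (z : ℤ) (T T' : ℚ≥0),
      (k ≤ 2 ^ (2 * n) ∧ l ≤ 2 ^ (2 * n) ∧ l ≤ k ∧ j = k - l ∧ 0 < T ∧ 0 < T') ∧
      ω ∈ evSt B n T z k ∧ ω ∈ evSt B n T' z l := by
  have he := knightTime_isEmb hg.cont hg.unb n
  have hδ : (0 : ℝ) < ((2 : ℝ) ^ n)⁻¹ := by positivity
  have h2 : (2 : ℝ) ^ n ≠ 0 := by positivity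
  constructor
  · rintro ⟨k, l, hk, hl, hlk, hw, hj⟩
    obtain ⟨z, hz⟩ := he.level hδ.le hg.zero k
    obtain ⟨T, hT0, hT⟩ := hg.exists_rat_idx n k
    obtain ⟨T', hT'0, hT'⟩ := hg.exists_rat_idx n l
    have hw' : B (knightTime (fun t => B t ω) n k) ω = B (knightTime (fun t => B t ω) n l) ω :=
      mul_left_cancel₀ h2 hw
    refine ⟨k, l, z, T, T', ⟨hk, hl, hlk, hj, hT0, hT'0⟩, ?_, ?_⟩
    · rw [hg.evSt_iff hT0]
      exact ⟨hT, hz⟩
    · rw [hg.evSt_iff hT'0]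
      exact ⟨hT', by rw [← hw']; exact hz⟩
  · rintro ⟨k, l, z, T, T', ⟨hk, hl, hlk, hj, hT0, hT'0⟩, h3, h4⟩
    rw [hg.evSt_iff hT0] at h3
    rw [hg.evSt_iff hT'0] at h4
    refine ⟨k, l, hk, hl, hlk, ?_, hj⟩
    unfold knightWalk
    congr 1
    simp only
    rw [h3.2, h4.2]

lemma nullMeasurable_walkSpan (hB : IsBrownianReal B P) (n j : ℕ) :
    NullMeasurableSet {ω | j ∈ walkSpan (fun t => B t ω) n} P := by
  have hB' := hB.toIsPreBrownianReal
  have hset : NullMeasurableSet {ω | ∃ (k l : ℕ) (z : ℤ) (T T' : ℚ≥0),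
      (k ≤ 2 ^ (2 * n) ∧ l ≤ 2 ^ (2 * n) ∧ l ≤ k ∧ j = k - l ∧ 0 < T ∧ 0 < T') ∧
      ω ∈ evSt B n T z k ∧ ω ∈ evSt B n T' z l} P := by
    have : {ω | ∃ (k l : ℕ) (z : ℤ) (T T' : ℚ≥0),
      (k ≤ 2 ^ (2 * n) ∧ l ≤ 2 ^ (2 * n) ∧ l ≤ k ∧ j = k - l ∧ 0 < T ∧ 0 < T') ∧
      ω ∈ evSt B n T z k ∧ ω ∈ evSt B n T' z l} = ⋃ (k : ℕ) (l : ℕ) (z : ℤ) (T : ℚ≥0) (T' : ℚ≥0)
        (_ : k ≤ 2 ^ (2 * n) ∧ l ≤ 2 ^ (2 * n) ∧ l ≤ k ∧ j = k - l ∧ 0 < T ∧ 0 < T'),
        evSt B n T z k ∩ evSt B n T' z l := by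
      ext ω
      simp only [mem_ofPred_eq, mem_iUnion, mem_inter_iff, exists_prop]
    rw [this]
    refine NullMeasurableSet.iUnion fun k => NullMeasurableSet.iUnion fun l =>
      NullMeasurableSet.iUnion fun z => NullMeasurableSet.iUnion fun T =>
      NullMeasurableSet.iUnion fun T' => NullMeasurableSet.iUnion fun _ => ?_
    exact (nullMeasurable_evSt hB' n T z k).inter (nullMeasurable_evSt hB' n T' z l)
  refine hset.congr ?_
  filter_upwards [goodPath_ae hB] with ω hω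
  exact propext (hω.mem_walkSpan_iff n j).symm

/-- the finite trace of the discrete span set -/
def trace (B : ℝ≥0 → Ω → ℝ) (n : ℕ) (ω : Ω) : Fin (2 ^ (2 * n) + 1) → Prop :=
  fun j => (j : ℕ) ∈ walkSpan (fun t => B t ω) n

lemma aemeasurable_trace (hB : IsBrownianReal B P) (n : ℕ) : AEMeasurable (trace B n) P :=
  aemeasurable_pi_lambda _ fun j =>
    aemeasurable_mem_of_nullMeasurable (nullMeasurable_walkSpan hB n j)

/-- the scaled set of a trace -/
def ofTrace (n : ℕ) (f : Fin (2 ^ (2 * n) + 1) → Prop) : Set ℝ :=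
  (fun j : Fin (2 ^ (2 * n) + 1) => ((j : ℕ) : ℝ) / 2 ^ (2 * n)) '' {j | f j}

omit [MeasurableSpace Ω] in
lemma ofTrace_trace (n : ℕ) (ω : Ω) :
    ofTrace n (trace B n ω) = scaledSpan (fun t => B t ω) n := by
  unfold ofTrace scaledSpan trace
  ext x
  constructor
  · rintro ⟨j, hj, rfl⟩
    exact ⟨j, hj, rfl⟩
  · rintro ⟨j, hj, rfl⟩
    have hj' : j < 2 ^ (2 * n) + 1 := by
      obtain ⟨k, l, hk, hl, hlk, -, rfl⟩ := hj
      omega
    exact ⟨⟨j, hj'⟩, hj, rfl⟩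

lemma scaledSpan_subset (b : ℝ≥0 → ℝ) (n : ℕ) : scaledSpan b n ⊆ Icc 0 1 := by
  rintro x ⟨j, ⟨k, l, hk, hl, hlk, -, rfl⟩, rfl⟩
  have h2 : (0 : ℝ) < 2 ^ (2 * n) := by positivity
  refine ⟨by positivity, ?_⟩
  simp only
  rw [div_le_one h2]
  have : k - l ≤ 2 ^ (2 * n) := (Nat.sub_le _ _).trans hk
  exact_mod_cast this

lemma spanSet_subset (b : ℝ≥0 → ℝ) : spanSet b ⊆ Icc 0 1 := by
  rintro x ⟨s, t, h1, h2, -, rfl⟩
  have h1' : (s : ℝ) ≤ t := by exact_mod_cast h1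
  have h2' : (t : ℝ) ≤ 1 := by exact_mod_cast h2
  have h3 : (0 : ℝ) ≤ s := s.coe_nonneg
  exact ⟨by linarith, by linarith⟩

lemma zero_mem_spanSet (b : ℝ≥0 → ℝ) : (0 : ℝ) ∈ spanSet b :=
  ⟨0, 0, le_rfl, zero_le, rfl, by simp⟩

lemma aemeasurable_dist (hB : IsBrownianReal B P) (n : ℕ) :
    AEMeasurable (fun ω => Metric.hausdorffDist (scaledSpan (fun t => B t ω) n)
      (spanSet (fun t => B t ω))) P := by
  have h1 : ∀ m, AEMeasurable (fun ω => Metric.hausdorffDist (scaledSpan (fun t => B t ω) n)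
      (scaledSpan (fun t => B t ω) m)) P := by
    intro m
    have h2 : Measurable (fun p : (Fin (2 ^ (2 * n) + 1) → Prop) × (Fin (2 ^ (2 * m) + 1) → Prop) =>
        Metric.hausdorffDist (ofTrace n p.1) (ofTrace m p.2)) := measurable_of_countable _
    have h3 := h2.comp_aemeasurable ((aemeasurable_trace hB n).prodMk (aemeasurable_trace hB m))
    refine h3.congr (ae_of_all _ fun ω => ?_)
    simp only [Function.comp_def, ofTrace_trace]
  refine aemeasurable_of_tendsto_metrizable_ae atTop h1 ?_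
  filter_upwards [goodPath_ae hB] with ω hω
  set b := fun t => B t ω with hb
  have hlim := hω.tendsto_hausdorff
  rw [tendsto_iff_dist_tendsto_zero]
  refine squeeze_zero (fun m => dist_nonneg) (fun m => ?_) hlim
  have hbd : ∀ {s t : Set ℝ}, (0 : ℝ) ∈ s → (0 : ℝ) ∈ t → s ⊆ Icc 0 1 → t ⊆ Icc 0 1 →
      Metric.hausdorffEDist s t ≠ ⊤ := by
    intro s t hs ht hs' ht'
    exact Metric.hausdorffEDist_ne_top_of_nonempty_of_bounded ⟨0, hs⟩ ⟨0, ht⟩
      ((Metric.isBounded_Icc 0 1).subset hs') ((Metric.isBounded_Icc 0 1).subset ht')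
  have z1 := GoodPath.zero_mem_scaledSpan b n
  have z2 := GoodPath.zero_mem_scaledSpan b m
  have z3 := zero_mem_spanSet b
  have t1 := Metric.hausdorffDist_triangle (u := spanSet b)
    (hbd z1 z2 (scaledSpan_subset b n) (scaledSpan_subset b m))
  have t2 := Metric.hausdorffDist_triangle (u := scaledSpan b m)
    (hbd z1 z3 (scaledSpan_subset b n) (spanSet_subset b))
  have t3 : Metric.hausdorffDist (spanSet b) (scaledSpan b m) =
    Metric.hausdorffDist (scaledSpan b m) (spanSet b) := Metric.hausdorffDist_comm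
  rw [Real.dist_eq, abs_le]
  constructor
  · linarith
  · linarith

/-- Almost sure convergence of the rescaled span sets. -/
theorem ae_tendsto (hB : IsBrownianReal B P) :
    ∀ᵐ ω ∂P, Tendsto (fun n : ℕ => Metric.hausdorffDist (scaledSpan (fun t => B t ω) n)
      (spanSet (fun t => B t ω))) atTop (𝓝 0) := by
  filter_upwards [goodPath_ae hB] with ω hω
  exact hω.tendsto_hausdorff

/-- Convergence in probability of the rescaled span sets. -/
theorem tendstoInMeasure (hB : IsBrownianReal B P) :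
    TendstoInMeasure P (fun (n : ℕ) (ω : Ω) => Metric.hausdorffDist
      (scaledSpan (fun t => B t ω) n) (spanSet (fun t => B t ω))) atTop (fun _ => 0) := by
  have : IsProbabilityMeasure P := hB.toIsPreBrownianReal.isGaussianProcess.isProbabilityMeasure
  exact tendstoInMeasure_of_tendsto_ae (fun n => (aemeasurable_dist hB n).aestronglyMeasurable)
    (ae_tendsto hB)

end Pool.Agent.Helper47.Knight
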